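import Mathlib
import Pool.Agent.N70.PP.Voc
import Pool.Agent.N70.EP.VocC
import Pool.Agent.Y793.Asa

/-!
Project W2: the groups `G ≀ A_n` from the fibre powers over the trivial group.
-/

set_option autoImplicit false
set_option linter.unusedVariables false

namespace Pool.Agent.H43W

open Pool.Agent.N70.EP.Voc Pool.Agent.N70.PP.Voc

section iso

theorem occurs_congr {F G H : Type} [Field F] [Group G] [Group H] (h : Occurs F G) (e : G ≃* H) :
    Occurs F H := by
  obtain ⟨L, i1, i2, i3, i4, ⟨f⟩⟩ := h
  exact ⟨L, i1, i2, i3, i4, ⟨f.trans e⟩⟩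

theorem occursRegularly_congr {F G H : Type} [Field F] [Group G] [Group H]
    (h : OccursRegularly F G) (e : G ≃* H) : OccursRegularly F H := by
  obtain ⟨L, i1, i2, i3, i4, i5, i6, ⟨f⟩, h2⟩ := h
  exact ⟨L, i1, i2, i3, i4, i5, i6, ⟨f.trans e⟩, h2⟩

theorem occursAll_congr {p : ℕ} {G H : Type} [Group G] [Group H] (h : OccursAll p G)
    (e : G ≃* H) : OccursAll p H :=
  ⟨fun k _ _ => occurs_congr (h.1 k) e, fun K _ _ hK => occurs_congr (h.2.1 K hK) e,
    fun K _ _ => occursRegularly_congr (h.2.2 K) e⟩

/-- The trivial group occurs. -/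
theorem occurs_one (F T : Type) [Field F] [Group T] [Subsingleton T] : Occurs F T := by
  refine ⟨F, inferInstance, Algebra.id F, inferInstance, inferInstance, ⟨?_⟩⟩
  have h1 : ∀ f : F ≃ₐ[F] F, f = 1 := fun f => AlgEquiv.ext fun x => f.commutes x
  exact
    { toFun := fun _ => 1
      invFun := fun _ => 1
      left_inv := fun f => (h1 f).symm
      right_inv := fun _ => Subsingleton.elim _ _
      map_mul' := fun _ _ => Subsingleton.elim _ _ }

theorem occursRegularly_one (K T : Type) [Field K] [Group T] [Subsingleton T] :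
    OccursRegularly K T := by
  refine ⟨RatFunc K, inferInstance, Algebra.id _, inferInstance, inferInstance, inferInstance,
    inferInstance, ?_, fun y hy => ?_⟩
  · have h1 : ∀ f : RatFunc K ≃ₐ[RatFunc K] RatFunc K, f = 1 := fun f =>
      AlgEquiv.ext fun x => f.commutes x
    exact ⟨{ toFun := fun _ => 1
             invFun := fun _ => 1
             left_inv := fun f => (h1 f).symm
             right_inv := fun _ => Subsingleton.elim _ _
             map_mul' := fun _ _ => Subsingleton.elim _ _ }⟩
  · have h2 := IsIntegrallyClosed.isIntegral_iff (R := Polynomial K) (K := RatFunc K) (x := y)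
    have h3 : IsIntegral K y := hy.isIntegral
    have h4 : IsIntegral (Polynomial K) y := h3.tower_top
    obtain ⟨f, hf⟩ := h2.1 h4
    have h5 : IsAlgebraic K f := by
      rw [← hf] at hy
      exact (isAlgebraic_algebraMap_iff
        (IsFractionRing.injective (Polynomial K) (RatFunc K))).1 hy
    have h6 : f.natDegree = 0 := by
      by_contra h7
      exact (Polynomial.transcendental f h7 (mem_nonZeroDivisors_of_ne_zero fun h0 => by
        rw [Polynomial.leadingCoeff_eq_zero] at h0
        exact h7 (by rw [h0, Polynomial.natDegree_zero]))) h5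
    refine ⟨f.coeff 0, ?_⟩
    rw [← hf, Polynomial.eq_C_of_natDegree_eq_zero h6]
    simp

theorem occursAll_one (p : ℕ) (T : Type) [Group T] [Subsingleton T] : OccursAll p T :=
  ⟨fun _ _ _ => occurs_one _ T, fun K _ _ _ => occurs_one K T,
    fun K _ _ => occursRegularly_one K T⟩

end iso

/-- `TwPow` over the trivial group. -/
noncomputable def twUnit (G : Type) [Group G] (n : ℕ) :
    TwPow (1 : G →* Unit) 1 n ≃* AltWreath G n where
  toFun z := ⟨z.1.1, z.2.2⟩
  invFun x := ⟨(x.1, ()), ⟨fun _ => rfl, x.2⟩⟩
  left_inv z := rfl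
  right_inv x := rfl
  map_mul' z w := rfl

theorem commutator_ker_one {G : Type} [Group G] (hG : commutator G = ⊤) :
    commutator (1 : G →* Unit).ker = ⊤ := by
  have e : G ≃* (1 : G →* Unit).ker :=
    { toFun := fun g => ⟨g, rfl⟩
      invFun := fun g => g.1
      left_inv := fun _ => rfl
      right_inv := fun _ => rfl
      map_mul' := fun _ _ => rfl }
  exact Y793.perf_congr e hG

/-- `OccursAll` from the fibre powers. -/
theorem occursAll_alt {G : Type} [Group G] {n : ℕ}
    (h : OccursIff 2 (TwPow (1 : G →* Unit) 1 n) Unit) : OccursAll 2 (AltWreath G n) := by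
  have h1 : OccursAll 2 Unit := occursAll_one 2 Unit
  exact occursAll_congr ⟨fun k _ _ => (h.1 k).2 (h1.1 k), fun K _ _ hK => (h.2.1 K hK).2 (h1.2.1 K hK),
    fun K _ _ => (h.2.2 K).2 (h1.2.2 K)⟩ (twUnit G n)

end Pool.Agent.H43W
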