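import Mathlib
import Pool.Agent.Y140.AW.Bas
import Pool.Agent.Y686.AW.Indep

/-!
Project W2: the exponent `q = p ^ e`.
-/

set_option autoImplicit false

namespace Pool.Agent.H43W

open Polynomial Pool.Agent.Y140.AW

theorem powq_inj (p e : ℕ) [Fact p.Prime] {N : Type} [Field N] [CharP N p] {a b : N}
    (h : a ^ (p ^ e) = b ^ (p ^ e)) : a = b := by
  have h1 : (a - b) ^ (p ^ e) = 0 := by
    rw [sub_pow_char_pow, h, sub_self]
  have h2 : p ^ e ≠ 0 := pow_ne_zero _ (Fact.out : p.Prime).ne_zero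
  exact sub_eq_zero.1 ((pow_eq_zero_iff h2).1 h1)

/-- The parameters are determined by `m` points. -/
theorem linQ (p e : ℕ) [Fact p.Prime] {K N : Type} [Field K] [Field N] [Algebra K N] [CharP N p]
    {Θ : K[X][X]} {D : K[X]} {B m : ℕ} {ν ν' : Fin m → N} {s : N} (x θ : Fin m → N)
    (hx : Function.Injective x) (h : ∀ j, IsPt Θ D (p ^ e) B ν s (x j) (θ j))
    (h' : ∀ j, IsPt Θ D (p ^ e) B ν' s (x j) (θ j)) : ν = ν' := by
  have hinj : Function.Injective (fun j => x j ^ (p ^ e)) := by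
    intro i j hij
    exact hx (powq_inj p e hij)
  have h1 : (fun i => ν i - ν' i) = 0 := by
    refine Matrix.eq_zero_of_forall_index_sum_pow_mul_eq_zero hinj fun j => ?_
    have h2 := (h j).2.2
    have h3 := (h' j).2.2
    rw [← h3, GG_eval, GG_eval] at h2
    have h4 := mul_left_cancel₀ (pow_ne_zero (p ^ e) (h j).2.1) (add_left_cancel h2)
    have h5 : ∑ i : Fin m, (x j ^ (p ^ e)) ^ (i : ℕ) * (ν i - ν' i) =
        ∑ i : Fin m, ν i * (x j ^ (p ^ e)) ^ (i : ℕ) -
          ∑ i : Fin m, ν' i * (x j ^ (p ^ e)) ^ (i : ℕ) := by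
      rw [← Finset.sum_sub_distrib]
      exact Finset.sum_congr rfl fun i _ => by ring
    rw [h5, h4, sub_self]
  funext i
  exact sub_eq_zero.1 (congrFun h1 i)

/-- The first coordinates of `m` different points are algebraically independent. -/
theorem indepQ (p e : ℕ) [Fact p.Prime] (K K₀ N : Type) [Field K] [CharP K p] [Field K₀]
    [Algebra K K₀] [Algebra.IsAlgebraic K K₀] [Field N] [IsAlgClosed N] [Algebra K N]
    [Algebra K₀ N] [IsScalarTower K K₀ N] (Θ : K[X][X]) (D₀ D : K[X]) (d B m : ℕ)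
    (hDD : DD Θ D₀ d) (ν : Fin m → N) (s : N)
    (hb : IsTranscendenceBasis K₀ (fun o : Option (Fin m) => o.elim s ν))
    (x θ : Fin m → N) (hx : Function.Injective x)
    (hpt : ∀ j, IsPt Θ D (p ^ e) B ν s (x j) (θ j)) :
      AlgebraicIndependent (IntermediateField.adjoin K₀ {s}) x := by
  classical
  have hcN : CharP N p := charP_of_injective_algebraMap (algebraMap K N).injective p
  let y : Fin m ⊕ Unit → N := Sum.elim x fun _ => s
  let F₁ : IntermediateField K₀ N := IntermediateField.adjoin K₀ (Set.range y)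
  have hsc : IsScalarTower K F₁ N := IsScalarTower.of_algebraMap_eq fun z => rfl
  have hxF : ∀ j, x j ∈ F₁ := fun j => IntermediateField.subset_adjoin K₀ _ ⟨Sum.inl j, rfl⟩
  have hsF : s ∈ F₁ := IntermediateField.subset_adjoin K₀ _ ⟨Sum.inr (), rfl⟩
  let L : IntermediateField F₁ N := algebraicClosure F₁ N
  have hL : ∀ z : N, z ∈ L ↔ IsAlgebraic F₁ z := fun z => mem_algebraicClosure_iff
  have hFL : ∀ z ∈ F₁, z ∈ L := fun z hz =>
    (hL z).2 (isAlgebraic_algebraMap (⟨z, hz⟩ : F₁))
  have hxL : ∀ j, x j ∈ L := fun j => hFL _ (hxF j)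
  have hsL : s ∈ L := hFL _ hsF
  -- polynomials in `x j`
  have hpolyL : ∀ (P : K[X]) (j : Fin m), aeval (x j) P ∈ L := by
    intro P j
    refine hFL _ ?_
    have h1 : aeval (x j) P = algebraMap F₁ N (aeval (⟨x j, hxF j⟩ : F₁) P) := by
      rw [← aeval_algebraMap_apply]
      rfl
    rw [h1]
    exact (aeval (⟨x j, hxF j⟩ : F₁) P).2
  have hθL : ∀ j, θ j ∈ L := by
    intro j
    rw [hL]
    have h1 := (hpt j).1
    have hint : IsIntegral F₁ (θ j) := by
      refine ⟨Θ.map (aeval (⟨x j, hxF j⟩ : F₁) : K[X] →ₐ[K] F₁).toRingHom,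
        hDD.monic.map _, ?_⟩
      rw [Polynomial.eval₂_eq_eval_map, Polynomial.map_map]
      have h2 : (algebraMap F₁ N).comp (aeval (⟨x j, hxF j⟩ : F₁) : K[X] →ₐ[K] F₁).toRingHom =
          (Polynomial.aeval (x j) : K[X] →ₐ[K] N).toRingHom := by
        refine RingHom.ext fun P => ?_
        show algebraMap F₁ N (aeval (⟨x j, hxF j⟩ : F₁) P) = aeval (x j) P
        rw [← aeval_algebraMap_apply]
        rfl
      rw [h2]
      exact h1
    exact hint.isAlgebraic
  -- the coefficients
  have hνL : ∀ a, ν a ∈ L := by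
    refine Y686.AW.solve_mem L (fun j => x j ^ (p ^ e)) ?_ (fun j => pow_mem (hxL j) (p ^ e)) ν ?_
    · intro i j hij
      exact hx (powq_inj p e hij)
    · intro j
      obtain ⟨-, h2, h3⟩ := hpt j
      have h4 : (GG D (p ^ e) B ν).eval (x j) = x j * (aeval (x j) D) ^ (p ^ e) +
          (x j ^ B * aeval (x j) D + 1) ^ (p ^ e) +
          (aeval (x j) D) ^ (p ^ e) * ∑ a : Fin m, ν a * (x j ^ (p ^ e)) ^ (a : ℕ) := by
        unfold GG
        simp only [eval_add, eval_mul, eval_X, eval_pow, eval_map_algebraMap, eval_one,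
          eval_finsetSum, eval_C, pow_mul]
      rw [h4] at h3
      have h5 : ∑ a : Fin m, ν a * (x j ^ (p ^ e)) ^ (a : ℕ) = (s * (aeval (x j) D * θ j) ^ (p ^ e) -
          (x j * (aeval (x j) D) ^ (p ^ e) + (x j ^ B * aeval (x j) D + 1) ^ (p ^ e))) /
          (aeval (x j) D) ^ (p ^ e) := by
        rw [eq_div_iff (pow_ne_zero (p ^ e) h2), ← h3]
        ring
      rw [h5]
      have hD' := hpolyL D j
      refine div_mem (sub_mem (mul_mem hsL (pow_mem (mul_mem hD' (hθL j)) (p ^ e))) (add_mem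
        (mul_mem (hxL j) (pow_mem hD' (p ^ e)))
        (pow_mem (add_mem (mul_mem (pow_mem (hxL j) B) hD') (one_mem _)) (p ^ e)))) (pow_mem hD' (p ^ e))
  -- `N` is algebraic over `F₁`
  let M : IntermediateField K₀ N :=
    IntermediateField.adjoin K₀ (Set.range (fun o : Option (Fin m) => o.elim s ν))
  have hMN : Algebra.IsAlgebraic M N := hb.isAlgebraic_field
  have hML : M ≤ L.restrictScalars K₀ := by
    refine IntermediateField.adjoin_le_iff.2 ?_
    rintro _ ⟨o, rfl⟩
    cases o with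
    | none => exact hsL
    | some a => exact hνL a
  have hML' : ∀ z : M, (algebraMap M N) z ∈ L := fun z => hML z.2
  have hN : Algebra.IsAlgebraic F₁ N := by
    let _ : Algebra M L := ((algebraMap M N).codRestrict L hML').toAlgebra
    have : IsScalarTower M L N := IsScalarTower.of_algebraMap_eq fun _ => rfl
    have hLF : Algebra.IsAlgebraic F₁ L := algebraicClosure.isAlgebraic F₁ N
    refine ⟨fun z => ?_⟩
    have h1 : IsAlgebraic M z := hMN.isAlgebraic z
    have h2 : IsAlgebraic L z := h1.tower_top L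
    exact h2.restrictScalars F₁
  have hN' : Algebra.IsAlgebraic (Algebra.adjoin K₀ (Set.range y)) N :=
    IntermediateField.isAlgebraic_adjoin_iff_top.1 hN
  have hcard : Cardinal.mk (Fin m ⊕ Unit) ≤ Algebra.trdeg K₀ N := by
    rw [← hb.cardinalMk_eq_trdeg]
    simp
  have hbas : IsTranscendenceBasis K₀ y :=
    Algebra.IsAlgebraic.isTranscendenceBasis_of_le_trdeg_of_finite K₀ y hcard
  have h1 := (AlgebraicIndependent.sumElim_iff.1 hbas.1).2
  have h2 := IntermediateField.algebraicIndependent_adjoin_iff.2 h1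
  have h3 : Set.range (fun _ : Unit => s) = {s} := Set.range_const
  rw [h3] at h2
  exact h2


end Pool.Agent.H43W
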