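import Pool.Agent.H43W.Cv

/-!
Project W2: the points of the cover for the exponent `q = p ^ e` (port of `Y921/AW/Pts.lean`).
-/

set_option autoImplicit false
set_option linter.unusedSectionVars false
set_option linter.unusedSimpArgs false

namespace Pool.Agent.H43W

open Polynomial Pool.Agent.Y140.AW

section deg

variable {q : ℕ} (hq2 : 2 ≤ q) {K N : Type} [Field K] [Field N] [Algebra K N]

include hq2 in
/-- the degree of `GG` -/
theorem GG_deg {D : K[X]} (hD : D ≠ 0) {B m : ℕ} (hB1 : 1 ≤ B) (hm : m ≤ B) (ν : Fin m → N) :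
    (GG D q B ν).natDegree = q * (B + D.natDegree) ∧
      (GG D q B ν).coeff (q * (B + D.natDegree)) = (algebraMap K N D.leadingCoeff) ^ q := by
  have hp2 : 2 ≤ q := hq2
  set E : N[X] := D.map (algebraMap K N) with hE
  have hE0 : E ≠ 0 := (Polynomial.map_ne_zero_iff (algebraMap K N).injective).2 hD
  have hEd : E.natDegree = D.natDegree := natDegree_map (algebraMap K N)
  have hEl : E.leadingCoeff = algebraMap K N D.leadingCoeff := leadingCoeff_map (algebraMap K N)
  set δ := D.natDegree with hδ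
  have hXE : (X ^ B * E).natDegree = B + δ := by
    rw [natDegree_mul (pow_ne_zero _ X_ne_zero) hE0, natDegree_X_pow, hEd]
  have hQ : (X ^ B * E + 1).natDegree = B + δ := by
    rw [show (1 : N[X]) = C 1 from C_1.symm, natDegree_add_C, hXE]
  have hQl : (X ^ B * E + 1).leadingCoeff = E.leadingCoeff := by
    rw [leadingCoeff, hQ, coeff_add, coeff_one, if_neg (by omega), add_zero, ← hXE]
    change (X ^ B * E).leadingCoeff = _
    rw [leadingCoeff_mul, leadingCoeff_X_pow, one_mul]
  have hQp : ((X ^ B * E + 1) ^ q).natDegree = q * (B + δ) := by rw [natDegree_pow, hQ]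
  have hQpl : ((X ^ B * E + 1) ^ q).coeff (q * (B + δ)) = (algebraMap K N D.leadingCoeff) ^ q := by
    rw [← hQp]
    change ((X ^ B * E + 1) ^ q).leadingCoeff = _
    rw [leadingCoeff_pow, hQl, hEl]
  have hEp : (E ^ q).natDegree = q * δ := by rw [natDegree_pow, hEd]
  have hlt1 : (X * E ^ q).natDegree < q * (B + δ) := by
    have h1 : (X * E ^ q).natDegree ≤ 1 + q * δ := by
      refine natDegree_mul_le.trans ?_
      rw [natDegree_X, hEp]
    have h2 : q * (B + δ) = q * B + q * δ := by ring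
    have h3 : 2 * 1 ≤ q * B := Nat.mul_le_mul hp2 hB1
    omega
  have hlt2 : (E ^ q * ∑ a : Fin m, C (ν a) * X ^ (q * (a : ℕ))).natDegree < q * (B + δ) := by
    have h1 : (∑ a : Fin m, C (ν a) * X ^ (q * (a : ℕ))).natDegree ≤ q * (B - 1) := by
      refine natDegree_sum_le_of_forall_le _ _ fun a _ => ?_
      refine (natDegree_C_mul_X_pow_le _ _).trans (Nat.mul_le_mul_left q ?_)
      have := a.2
      omega
    have h2 : (E ^ q * ∑ a : Fin m, C (ν a) * X ^ (q * (a : ℕ))).natDegree ≤
        q * δ + q * (B - 1) := by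
      refine natDegree_mul_le.trans ?_
      rw [hEp]
      omega
    have h3 : q * (B + δ) = q * (B - 1) + q + q * δ := by
      obtain ⟨c, rfl⟩ : ∃ c, B = c + 1 := ⟨B - 1, by omega⟩
      rw [Nat.add_sub_cancel]
      ring
    omega
  have hGG : GG D q B ν = (X ^ B * E + 1) ^ q +
      (X * E ^ q + E ^ q * ∑ a : Fin m, C (ν a) * X ^ (q * (a : ℕ))) := by
    unfold GG
    rw [← hE]
    ring
  have hlt : (X * E ^ q + E ^ q * ∑ a : Fin m, C (ν a) * X ^ (q * (a : ℕ))).natDegree <
      q * (B + δ) := lt_of_le_of_lt (natDegree_add_le _ _) (max_lt hlt1 hlt2)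
  constructor
  · rw [hGG, natDegree_add_eq_left_of_natDegree_lt (by rw [hQp]; exact hlt), hQp]
  · rw [hGG, coeff_add, hQpl, coeff_eq_zero_of_natDegree_lt hlt, add_zero]

/-- the polynomial whose roots are the first coordinates of the points -/
noncomputable def PP (Θ : K[X][X]) (D : K[X]) (q B d : ℕ) {m : ℕ} (ν : Fin m → N) (s : N) : N[X] :=
  ∑ k ∈ Finset.range (d + 1), ((Θ.coeff k).map (algebraMap K N)) ^ q * (GG D q B ν) ^ k *
    (C s * (D.map (algebraMap K N)) ^ q) ^ (d - k)

include hq2 in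
theorem PP_deg {Θ : K[X][X]} {D : K[X]} (hD : D ≠ 0) {B d m : ℕ} (hΘ : Θ.Monic)
    (hd : Θ.natDegree = d) (hB1 : 1 ≤ B) (hm : m ≤ B) (hc : ∀ k, (Θ.coeff k).natDegree < B)
    (ν : Fin m → N) (s : N) :
    (PP Θ D q B d ν s).natDegree = d * (q * (B + D.natDegree)) ∧
      (PP Θ D q B d ν s).leadingCoeff = (algebraMap K N D.leadingCoeff) ^ (q * d) := by
  have hp2 : 2 ≤ q := hq2
  obtain ⟨hg, hgl⟩ := GG_deg hq2 hD hB1 hm ν
  set g := GG D q B ν with hgdef
  set δ := D.natDegree with hδ
  set M := q * (B + δ) with hM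
  have hgl' : g.leadingCoeff = (algebraMap K N D.leadingCoeff) ^ q := by
    rw [leadingCoeff, hg, hgl]
  have h1 : (g ^ d).natDegree = d * M := by rw [natDegree_pow, hg]
  have h2 : (g ^ d).leadingCoeff = (algebraMap K N D.leadingCoeff) ^ (q * d) := by
    rw [leadingCoeff_pow, hgl', ← pow_mul]
  have hsplit : PP Θ D q B d ν s = g ^ d + ∑ k ∈ Finset.range d,
      ((Θ.coeff k).map (algebraMap K N)) ^ q * g ^ k *
        (C s * (D.map (algebraMap K N)) ^ q) ^ (d - k) := by
    unfold PP
    rw [Finset.sum_range_succ, add_comm, Nat.sub_self, pow_zero, mul_one, ← hgdef]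
    congr 1
    have : Θ.coeff d = 1 := by
      rw [← hd]
      exact hΘ
    rw [this, Polynomial.map_one, one_pow, one_mul]
  by_cases hd0 : d = 0
  · subst hd0
    rw [hsplit]
    simp
  have hMpos : 0 < M := by
    rw [hM]
    have : 0 < q := by omega
    positivity
  have hlow : (∑ k ∈ Finset.range d, ((Θ.coeff k).map (algebraMap K N)) ^ q * g ^ k *
      (C s * (D.map (algebraMap K N)) ^ q) ^ (d - k)).natDegree < d * M := by
    have h3 : (∑ k ∈ Finset.range d, ((Θ.coeff k).map (algebraMap K N)) ^ q * g ^ k *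
        (C s * (D.map (algebraMap K N)) ^ q) ^ (d - k)).natDegree ≤ d * M - 1 := by
      refine natDegree_sum_le_of_forall_le _ _ fun k hk => ?_
      have hk' := Finset.mem_range.1 hk
      have e1 : (((Θ.coeff k).map (algebraMap K N)) ^ q).natDegree ≤ q * (B - 1) := by
        rw [natDegree_pow]
        refine Nat.mul_le_mul_left q ?_
        rw [natDegree_map]
        have := hc k
        omega
      have e2 : (g ^ k).natDegree = k * M := by rw [natDegree_pow, hg]
      have e3 : ((C s * (D.map (algebraMap K N)) ^ q) ^ (d - k)).natDegree ≤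
          (d - k) * (q * δ) := by
        rw [natDegree_pow]
        refine Nat.mul_le_mul_left _ ?_
        refine (natDegree_C_mul_le _ _).trans ?_
        rw [natDegree_pow, natDegree_map]
      have e4 : ((((Θ.coeff k).map (algebraMap K N)) ^ q * g ^ k *
          (C s * (D.map (algebraMap K N)) ^ q) ^ (d - k))).natDegree ≤
          q * (B - 1) + k * M + (d - k) * (q * δ) := by
        refine natDegree_mul_le.trans (Nat.add_le_add ?_ e3)
        refine natDegree_mul_le.trans ?_
        rw [e2]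
        omega
      have e5 : d * M = (d - k) * (q * B) + k * M + (d - k) * (q * δ) := by
        obtain ⟨c, rfl⟩ : ∃ c, d = k + c := ⟨d - k, by omega⟩
        rw [Nat.add_sub_cancel_left, hM]
        ring
      have e6 : q * (B - 1) + 1 ≤ (d - k) * (q * B) := by
        have e7 : 1 * (q * B) ≤ (d - k) * (q * B) := Nat.mul_le_mul_right _ (by omega)
        obtain ⟨c, rfl⟩ : ∃ c, B = c + 1 := ⟨B - 1, by omega⟩
        rw [Nat.add_sub_cancel]
        have e8 : q * (c + 1) = q * c + q := by ring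
        omega
      omega
    have h4 : 0 < d * M := Nat.mul_pos (by omega) hMpos
    omega
  have hnd : (PP Θ D q B d ν s).natDegree = d * M := by
    rw [hsplit, natDegree_add_eq_left_of_natDegree_lt (by rw [h1]; exact hlow), h1]
  refine ⟨hnd, ?_⟩
  rw [leadingCoeff, hnd, hsplit, coeff_add, coeff_eq_zero_of_natDegree_lt hlow, add_zero, ← h1]
  exact h2

end deg

section chr

variable {p e : ℕ} [hp : Fact p.Prime] (he : 1 ≤ e) {K N : Type} [Field K] [CharP K p] [Field N]
  [Algebra K N]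

/-- `Θ(a, b)` as a sum -/
theorem tA_eval {Θ : K[X][X]} {d : ℕ} (hd : Θ.natDegree = d) (a b : N) :
    (tA Θ a).eval b = ∑ k ∈ Finset.range (d + 1), aeval a (Θ.coeff k) * b ^ k := by
  have h1 : (tA Θ a).natDegree < d + 1 := by
    have : (tA Θ a).natDegree ≤ Θ.natDegree := natDegree_map_le
    omega
  rw [eval_eq_sum_range' h1]
  refine Finset.sum_congr rfl fun k _ => ?_
  unfold tA
  rw [coeff_map]
  rfl

theorem tZ_eval {Θ : K[X][X]} {d : ℕ} (hd : Θ.natDegree = d) (a b : N) :
    tZ Θ a b = ∑ k ∈ Finset.range (d + 1), aeval a (Θ.coeff k) * k * b ^ (k - 1) := by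
  have h1 : (tA Θ a).natDegree < d + 1 := by
    have : (tA Θ a).natDegree ≤ Θ.natDegree := natDegree_map_le
    omega
  unfold tZ
  rw [derivative_eval, sum_over_range' _ _ _ h1]
  · refine Finset.sum_congr rfl fun k _ => ?_
    have h2 : (tA Θ a).coeff k = aeval a (Θ.coeff k) := by
      unfold tA
      rw [coeff_map]
      rfl
    rw [h2]
  · intro n
    simp

omit hp [CharP K p] in
theorem PP_eval (Θ : K[X][X]) (D : K[X]) (B d : ℕ) {m : ℕ} (ν : Fin m → N) (s a : N) :
    (PP Θ D (p ^ e) B d ν s).eval a = ∑ k ∈ Finset.range (d + 1),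
      (aeval a (Θ.coeff k)) ^ (p ^ e) * ((GG D (p ^ e) B ν).eval a) ^ k * (s * (aeval a D) ^ (p ^ e)) ^ (d - k) := by
  unfold PP
  rw [eval_finsetSum]
  refine Finset.sum_congr rfl fun k _ => ?_
  simp only [eval_mul, eval_pow, eval_C, eval_map_algebraMap]

/-- the value at a point `a` when `G(a) = s (D(a) b) ^ (p ^ e)` -/
theorem PP_eval_pt {Θ : K[X][X]} {D : K[X]} {B d m : ℕ} (hd : Θ.natDegree = d) (ν : Fin m → N)
    {s a b : N} (hg : (GG D (p ^ e) B ν).eval a = s * (aeval a D * b) ^ (p ^ e)) :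
    (PP Θ D (p ^ e) B d ν s).eval a = (s * (aeval a D) ^ (p ^ e)) ^ d * ((tA Θ a).eval b) ^ (p ^ e) := by
  have : CharP N p := charP_of_injective_algebraMap (algebraMap K N).injective p
  rw [PP_eval, tA_eval hd, sum_pow_char_pow, Finset.mul_sum]
  refine Finset.sum_congr rfl fun k hk => ?_
  have hk' : k ≤ d := by
    have := Finset.mem_range.1 hk
    omega
  rw [hg]
  obtain ⟨c, rfl⟩ : ∃ c, d = k + c := ⟨d - k, by omega⟩
  rw [Nat.add_sub_cancel_left, pow_add]
  have h1 : (s * (aeval a D * b) ^ (p ^ e)) ^ k = (s * (aeval a D) ^ (p ^ e)) ^ k * (b ^ k) ^ (p ^ e) := by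
    rw [← pow_mul, mul_comm k (p ^ e), pow_mul, ← mul_pow]
    ring
  rw [h1]
  ring

omit [Field K] [CharP K p] [Algebra K N] in
include he in
/-- the derivative of a `q`-th power -/
theorem der_pow [CharP N p] (f : N[X]) : derivative (f ^ (p ^ e)) = 0 := by
  have h0 : ((p ^ e : ℕ) : N) = 0 := by
    rw [CharP.cast_eq_zero_iff N p]
    exact dvd_pow_self p (by omega)
  rw [derivative_pow, h0, C_0, zero_mul, zero_mul]

include he in
theorem GG_der (D : K[X]) (B : ℕ) {m : ℕ} (ν : Fin m → N) :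
    derivative (GG D (p ^ e) B ν) = (D.map (algebraMap K N)) ^ (p ^ e) := by
  have : CharP N p := charP_of_injective_algebraMap (algebraMap K N).injective p
  unfold GG
  have h1 : derivative (∑ a : Fin m, C (ν a) * X ^ ((p ^ e) * (a : ℕ))) = 0 := by
    rw [derivative_sum]
    refine Finset.sum_eq_zero fun a _ => ?_
    rw [mul_comm (p ^ e), pow_mul, derivative_C_mul, der_pow he, mul_zero]
  rw [derivative_add, derivative_add, derivative_mul, der_pow he, der_pow he, derivative_mul, der_pow he,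
    h1, derivative_X]
  ring

include he in
theorem PP_der (Θ : K[X][X]) (D : K[X]) (B d : ℕ) {m : ℕ} (ν : Fin m → N) (s : N) :
    derivative (PP Θ D (p ^ e) B d ν s) = ∑ k ∈ Finset.range (d + 1),
      ((Θ.coeff k).map (algebraMap K N)) ^ (p ^ e) *
        ((k : N[X]) * (GG D (p ^ e) B ν) ^ (k - 1) * (D.map (algebraMap K N)) ^ (p ^ e)) *
        (C s * (D.map (algebraMap K N)) ^ (p ^ e)) ^ (d - k) := by
  have : CharP N p := charP_of_injective_algebraMap (algebraMap K N).injective p
  unfold PP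
  rw [derivative_sum]
  refine Finset.sum_congr rfl fun k _ => ?_
  have h1 : derivative ((C s * (D.map (algebraMap K N)) ^ (p ^ e)) ^ (d - k)) = 0 := by
    rw [derivative_pow, derivative_C_mul, der_pow he, mul_zero, mul_zero]
  rw [derivative_mul, derivative_mul, der_pow he, h1, derivative_pow, GG_der he]
  simp only [C_eq_natCast, map_natCast]
  ring

include he in
theorem PP_der_eval {Θ : K[X][X]} {D : K[X]} {B d m : ℕ} (hd : Θ.natDegree = d) (hd0 : 0 < d)
    (ν : Fin m → N)
    {s a b : N} (hg : (GG D (p ^ e) B ν).eval a = s * (aeval a D * b) ^ (p ^ e)) :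
    (derivative (PP Θ D (p ^ e) B d ν s)).eval a =
      (aeval a D) ^ (p ^ e) * (s * (aeval a D) ^ (p ^ e)) ^ (d - 1) * (tZ Θ a b) ^ (p ^ e) := by
  have : CharP N p := charP_of_injective_algebraMap (algebraMap K N).injective p
  rw [PP_der he, tZ_eval hd, sum_pow_char_pow, Finset.mul_sum, eval_finsetSum]
  refine Finset.sum_congr rfl fun k hk => ?_
  simp only [eval_mul, eval_pow, eval_C, eval_map_algebraMap, eval_natCast]
  rw [hg]
  have hkp : (k : N) ^ (p ^ e) = (k : N) := by
    have := map_natCast (iterateFrobenius N p e) k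
    rwa [iterateFrobenius_def] at this
  have h0 : (aeval a (Θ.coeff k) * (k : N) * b ^ (k - 1)) ^ (p ^ e) =
      (aeval a (Θ.coeff k)) ^ (p ^ e) * (k : N) * (b ^ (k - 1)) ^ (p ^ e) := by
    rw [mul_pow, mul_pow, hkp]
  rw [h0]
  rcases Nat.eq_zero_or_pos k with rfl | hk0
  · simp
  have hk' : k ≤ d := by
    have := Finset.mem_range.1 hk
    omega
  obtain ⟨c, rfl⟩ : ∃ c, d = k + c := ⟨d - k, by omega⟩
  obtain ⟨e', rfl⟩ : ∃ e', k = e' + 1 := ⟨k - 1, by omega⟩
  have e1 : e' + 1 + c - (e' + 1) = c := by omega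
  have e2 : e' + 1 + c - 1 = e' + c := by omega
  have e3 : e' + 1 - 1 = e' := by omega
  rw [e1, e2, e3, pow_add]
  have h1 : (s * (aeval a D * b) ^ (p ^ e)) ^ e' =
      (s * (aeval a D) ^ (p ^ e)) ^ e' * (b ^ e') ^ (p ^ e) := by
    rw [← pow_mul, mul_comm e' (p ^ e), pow_mul, ← mul_pow]
    ring
  rw [h1]
  ring

end chr

/-- The points for the exponent `p ^ e`. -/
theorem ptsQ (h : St_res) (p e Q : ℕ) (hQ : Q = p ^ e) [Fact p.Prime] (he : 1 ≤ e) (K N : Type) [Field K]
    [CharP K p] [Field N] [IsAlgClosed N] [Algebra K N] (Θ : K[X][X]) (D₀ D : K[X]) (d B m : ℕ)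
    (hDD : DD Θ D₀ d) (hBB : BB Θ B m) (hDD₀ : D = D₀ ^ 4) (ν : Fin m → N) (s : N) (hs : s ≠ 0) :
    ∃ x θ : Fin (d * (Q * (B + D.natDegree))) → N, Function.Injective x ∧
      (∀ l, IsPt Θ D Q B ν s (x l) (θ l)) ∧
      (∀ a b, IsPt Θ D Q B ν s a b → ∃ l, a = x l ∧ b = θ l) := by
  subst hQ
  have : CharP N p := charP_of_injective_algebraMap (algebraMap K N).injective p
  have hp0 : p ^ e ≠ 0 := pow_ne_zero _ (Fact.out : p.Prime).ne_zero
  have hq2 : 2 ≤ p ^ e := (Fact.out : p.Prime).two_le.trans (Nat.le_self_pow (by omega) p)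
  have hD0 : D ≠ 0 := by
    rw [hDD₀]
    exact pow_ne_zero _ hDD.ne
  set P := PP Θ D (p ^ e) B d ν s with hP
  obtain ⟨hPd, hPl⟩ := PP_deg hq2 hD0 hDD.monic hDD.deg hBB.one hBB.m hBB.coeff ν s
  rw [← hP] at hPd hPl
  have hlc : (algebraMap K N D.leadingCoeff) ^ (p ^ e * d) ≠ 0 := by
    refine pow_ne_zero _ fun h0 => ?_
    rw [map_eq_zero] at h0
    exact hD0 (leadingCoeff_eq_zero.1 h0)
  have hP0 : P ≠ 0 := by
    intro h0
    rw [h0, leadingCoeff_zero] at hPl
    exact hlc hPl.symm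
  -- points are roots
  have hroot : ∀ a b, IsPt Θ D (p ^ e) B ν s a b → P.eval a = 0 := by
    rintro a b ⟨h1, -, h3⟩
    rw [hP, PP_eval_pt hDD.deg ν h3, h1, zero_pow hp0, mul_zero]
  -- roots are points
  have hpt : ∀ a, P.eval a = 0 → ∃ b, IsPt Θ D (p ^ e) B ν s a b := by
    intro a ha
    have hDa : aeval a D ≠ 0 := by
      intro h0
      have h1 : (GG D (p ^ e) B ν).eval a = 1 := by
        unfold GG
        simp only [eval_add, eval_mul, eval_pow, eval_X, eval_map_algebraMap, h0, zero_pow hp0,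
          mul_zero, zero_mul, zero_add, eval_one, one_pow, add_zero]
      have h2 : P.eval a = 1 := by
        rw [hP, PP_eval, h1, h0, zero_pow hp0, mul_zero, Finset.sum_range_succ,
          Finset.sum_eq_zero, zero_add, Nat.sub_self, pow_zero, mul_one, one_pow, mul_one]
        · have h3 : Θ.coeff d = 1 := by
            rw [← hDD.deg]
            exact hDD.monic
          rw [h3, map_one, one_pow]
        · intro k hk
          have := Finset.mem_range.1 hk
          rw [zero_pow (by omega), mul_zero]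
      rw [h2] at ha
      exact one_ne_zero ha
    obtain ⟨b, hb⟩ := IsAlgClosed.exists_pow_nat_eq
      ((GG D (p ^ e) B ν).eval a / (s * (aeval a D) ^ (p ^ e))) (Nat.pos_of_ne_zero hp0)
    have hsD : s * (aeval a D) ^ (p ^ e) ≠ 0 := mul_ne_zero hs (pow_ne_zero _ hDa)
    have hg : (GG D (p ^ e) B ν).eval a = s * (aeval a D * b) ^ (p ^ e) := by
      rw [mul_pow, hb, ← mul_assoc, mul_div_cancel₀ _ hsD]
    refine ⟨b, ?_, hDa, hg⟩
    rw [hP, PP_eval_pt hDD.deg ν hg] at ha
    exact pow_eq_zero_iff hp0 |>.1 ((mul_eq_zero.1 ha).resolve_left (pow_ne_zero _ hsD))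
  -- the derivative
  have hder : ∀ a b, IsPt Θ D (p ^ e) B ν s a b → (derivative P).eval a =
      (aeval a D) ^ (p ^ e) * (s * (aeval a D) ^ (p ^ e)) ^ (d - 1) * (tZ Θ a b) ^ (p ^ e) := by
    rintro a b ⟨-, -, h3⟩
    rw [hP]
    exact PP_der_eval he hDD.deg hDD.pos ν h3
  have hder0 : ∀ a, P.eval a = 0 → (derivative P).eval a ≠ 0 := by
    intro a ha
    obtain ⟨b, hb⟩ := hpt a ha
    rw [hder a b hb]
    have hDa := hb.2.1
    refine mul_ne_zero (mul_ne_zero (pow_ne_zero _ hDa) (pow_ne_zero _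
      (mul_ne_zero hs (pow_ne_zero _ hDa)))) (pow_ne_zero _ ?_)
    have hD₀a : aeval a D₀ ≠ 0 := by
      intro h0
      apply hDa
      rw [hDD₀, map_pow, h0, zero_pow (by norm_num)]
    obtain ⟨β, -, hβ, hprod⟩ := h K N Θ D₀ d hDD a hD₀a
    obtain ⟨i, hi⟩ := (hβ b).1 hb.1
    rw [hi]
    intro h0
    rw [← hprod] at hD₀a
    exact hD₀a (Finset.prod_eq_zero (Finset.mem_univ i) h0)
  -- the roots
  classical
  have hnodup : P.roots.Nodup := by
    rw [Multiset.nodup_iff_count_le_one]
    intro a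
    rw [count_roots]
    by_contra hcon
    push Not at hcon
    have h1 : P.IsRoot a := by
      by_contra h2
      rw [rootMultiplicity_eq_zero h2] at hcon
      omega
    exact hder0 a h1 ((one_lt_rootMultiplicity_iff_isRoot hP0).1 hcon).2
  have hcard : P.roots.toFinset.card = d * (p ^ e * (B + D.natDegree)) := by
    rw [Multiset.toFinset_card_of_nodup hnodup, ← hPd]
    exact (IsAlgClosed.splits P).natDegree_eq_card_roots.symm
  set ee := (Finset.equivFinOfCardEq hcard) with hee
  set x : Fin (d * (p ^ e * (B + D.natDegree))) → N := fun l => ((ee.symm l : P.roots.toFinset) : N)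
    with hx
  have hxinj : Function.Injective x := fun i j hij => ee.symm.injective (Subtype.ext hij)
  have hxroot : ∀ l, P.eval (x l) = 0 := by
    intro l
    have h1 := (ee.symm l).2
    rw [Multiset.mem_toFinset, mem_roots hP0] at h1
    exact h1
  have hxall : ∀ a, P.eval a = 0 → ∃ l, a = x l := by
    intro a ha
    have h1 : a ∈ P.roots.toFinset := by
      rw [Multiset.mem_toFinset, mem_roots hP0]
      exact ha
    refine ⟨ee ⟨a, h1⟩, ?_⟩
    simp only [hx, Equiv.symm_apply_apply]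
  choose θ hθ using fun l => hpt (x l) (hxroot l)
  refine ⟨x, θ, hxinj, hθ, ?_⟩
  intro a b hab
  obtain ⟨l, hl⟩ := hxall a (hroot a b hab)
  refine ⟨l, hl, ?_⟩
  subst hl
  have h1 := hab.2.2
  rw [(hθ l).2.2] at h1
  have h2 := mul_left_cancel₀ hs h1
  have h3 := powq_inj p e h2
  exact (mul_left_cancel₀ hab.2.1 h3).symm

end Pool.Agent.H43W
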