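import Mathlib
import Pool.Agent.N70.PP.Main
import Pool.Agent.H43W.Core
import Pool.Agent.H43W.Pts

/-!
Project W2: the main theorems in characteristic 2 from the parity theorem.
-/

set_option autoImplicit false
set_option linter.unusedSectionVars false
set_option linter.unusedSimpArgs false

namespace Pool.Agent.H43W

open Polynomial Pool.Agent.H391R2 Pool.Agent.H391R2.T4 Pool.Agent.Y793 Pool.Agent.Y140.AW
open Pool.Agent.N70.EP (SgnIndex)
open Pool.Agent.N70.PP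

/-- PAR2: parity in characteristic 2 (statement). -/
def St_parity : Prop :=
  ∀ (K N : Type) [Field K] [CharP K 2] [Field N] [IsAlgClosed N] [Algebra K N] (Θ : K[X][X])
    (D₀ : K[X]) (d m : ℕ), DD Θ D₀ d → ∀ (ν : Fin m → N) (s : N), s ≠ 0 →
    ∃ B₀ : ℕ, ∀ B ≥ B₀, ∀ x θ : Fin (d * (8 * (B + (D₀ ^ 4).natDegree))) → N,
      Function.Injective x → (∀ l, IsPt Θ (D₀ ^ 4) 8 B ν s (x l) (θ l)) →
      ∀ σ : N ≃ₐ[K] N, σ s = s → (∀ i, σ (ν i) = ν i) →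
      ∀ π : Equiv.Perm (Fin (d * (8 * (B + (D₀ ^ 4).natDegree)))), (∀ l, σ (x l) = x (π l)) →
        Equiv.Perm.sign π = 1

/-- The pieces. -/
structure Pc : Prop where
  mt : St_mt
  res : St_res
  par : St_parity
  tup : St_tuple
  lift : St_lift
  ari : St_ariP
  data : St_dataP
  grpA : St_grpA

/-- The degrees. -/
def Dg (c n : ℕ) : Prop := ∃ q : ℕ, q.Prime ∧ n = q + (c + 1) ∧ c ∣ n

theorem exists_dg (c : ℕ) (hc : 0 < c) (n₀ : ℕ) : ∃ n ≥ n₀, Dg c n := by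
  obtain ⟨q, hq1, hq, k', hk'⟩ := exists_q c n₀ hc
  refine ⟨q + (c + 1), by omega, q, hq, rfl, k' + 1, ?_⟩
  rw [mul_add, ← hk']
  ring

section main

variable (hh : Pc)
    {K L Z : Type} [Field K] [CharP K 2] [Infinite K] [Field L] [Algebra K L]
    [FiniteDimensional K L] [IsGalois K L] [Field Z] [Algebra (RatFunc K) Z] [Algebra L Z]
    [Algebra K Z] [IsScalarTower K (RatFunc K) Z] [IsScalarTower K L Z]
    [FiniteDimensional (RatFunc K) Z] [IsGalois (RatFunc K) Z]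
    (π : (Z ≃ₐ[RatFunc K] Z) →* (L ≃ₐ[K] L))
    (hπ : ∀ (σ : Z ≃ₐ[RatFunc K] Z) (x : L), σ (algebraMap L Z x) = algebraMap L Z (π σ x))
    (hreg : ∀ y : Z, IsAlgebraic L y → y ∈ Set.range (algebraMap L Z))
    (P : Subgroup (Z ≃ₐ[RatFunc K] Z)) {B : Type} [Group B] [Finite B] (β : P →* B)
    (hβ : Function.Surjective β) (a : B →* (L ≃ₐ[K] L)) (hsurj : Function.Surjective a)
    (ha : ∀ p : P, a (β p) = π p) (hperf : commutator a.ker = ⊤)

include hh hπ hreg hβ hsurj ha hperf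

theorem oneQ : ∃ n₀ : ℕ, ∀ n ≥ n₀, Dg (8 * P.index) n →
    RegSol K L (AltTw a 1 n) (twProj a 1 n) := by
  classical
  obtain ⟨θ, Θ, D₀, hθ, hΘ, hDD⟩ := hh.data K Z P
  obtain ⟨d, hd⟩ : ∃ d, d = P.index := ⟨_, rfl⟩
  rw [← hd] at hDD ⊢
  have hd0 := hDD.pos
  obtain ⟨L', hL⟩ := exists_L Θ
  obtain ⟨c, hc⟩ : ∃ c, c = 8 * d := ⟨_, rfl⟩
  rw [← hc]
  obtain ⟨r, hr⟩ : ∃ r, r = c + 1 := ⟨_, rfl⟩
  let K₀ := AlgebraicClosure K
  let jL : L →ₐ[K] K₀ := IsAlgClosed.lift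
  let iL : Algebra L K₀ := jL.toRingHom.toAlgebra
  have tKL : IsScalarTower K L K₀ := .of_algebraMap_eq fun x => (jL.commutes x).symm
  obtain ⟨N, i1, i2, i3, η, hη⟩ := exists_trb K₀ (Option (Fin (r + 1)))
  let i4 : Algebra K N := ((algebraMap K₀ N).comp (algebraMap K K₀)).toAlgebra
  let i4L : Algebra L N := ((algebraMap K₀ N).comp (algebraMap L K₀)).toAlgebra
  have i5 : IsScalarTower K K₀ N := .of_algebraMap_eq fun _ => rfl
  have i5L : IsScalarTower L K₀ N := .of_algebraMap_eq fun _ => rfl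
  have i6 : IsScalarTower K L N := .of_algebraMap_eq fun x => by
    rw [IsScalarTower.algebraMap_apply K K₀ N, IsScalarTower.algebraMap_apply K L K₀,
      ← IsScalarTower.algebraMap_apply L K₀ N]
  obtain ⟨s, hs⟩ : ∃ s : N, s = η none := ⟨_, rfl⟩
  obtain ⟨ν, hν⟩ : ∃ ν : Fin (r + 1) → N, ν = fun i => η (some i) := ⟨_, rfl⟩
  have hη' : (fun o : Option (Fin (r + 1)) => o.elim s ν) = η := by
    funext o
    cases o with
    | none => exact hs
    | some i => rw [hν]; rfl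
  rw [← hη'] at hη
  have hs0 : s ≠ 0 := hη.1.ne_zero none
  obtain ⟨B₀, hB₀⟩ := hh.par K N Θ D₀ d (r + 1) hDD ν s hs0
  obtain ⟨T, hT⟩ : ∃ T, T = 4 * D₀.natDegree + L' + r + 3 + B₀ := ⟨_, rfl⟩
  refine ⟨c * T + 2 * r + 2 * (Nat.card a.ker) ^ 2 + 3, fun n hn0 hn => ?_⟩
  obtain ⟨q, hq, hnq, j, hj⟩ := hn
  rw [← hr] at hnq
  have hjT : T < j := by
    by_contra h
    have h1 : c * j ≤ c * T := Nat.mul_le_mul_left c (by omega)
    omega
  obtain ⟨Bd, hB⟩ : ∃ Bd, Bd = j - 4 * D₀.natDegree := ⟨_, rfl⟩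
  have hBδ : Bd + (D₀ ^ 4).natDegree = j := by
    rw [natDegree_pow, hB]
    omega
  have hnd : d * (8 * (Bd + (D₀ ^ 4).natDegree)) = n := by
    rw [hBδ, hj, hc]
    ring
  have hBB : BB Θ Bd (r + 1) := ⟨by omega, by omega, fun k => by have := hL k; omega⟩
  obtain ⟨x, θx, hx, hpt, hall⟩ := ptsQ hh.res 2 3 8 (by norm_num) (by norm_num) K N Θ D₀ (D₀ ^ 4)
    d Bd (r + 1) hDD hBB rfl ν s hs0
  rw [← hnd]
  refine coreQ (K₀ := K₀) (N := N) 2 3 8 (by norm_num) hh.mt hh.tup hh.lift hh.ari π hπ hreg P θ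
    Θ hθ hΘ D₀ d hDD β hβ a hsurj ha hperf Bd r q _ hq (hnd.trans hnq) (by omega) (by omega)
    (lt_of_lt_of_le (by omega) (Nat.self_le_factorial _)) s ν hη x θx hx hpt hall 1 ?_
  intro σ h τ hσs hσν _ hperm hτ _
  exact hB₀ Bd (by omega) x θx hx hpt σ hσs hσν τ hτ

end main

/-- MAINA in characteristic 2. -/
def St_mainA2 : Prop :=
  ∀ (K L : Type) [Field K] [CharP K 2] [Infinite K] [Field L]
    [Algebra K L] [FiniteDimensional K L] [IsGalois K L] (B : Type) [Group B] [Finite B]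
    (a : B →* (L ≃ₐ[K] L)), Function.Surjective a → commutator a.ker = ⊤ →
    ∀ n₀ : ℕ, ∃ n ≥ n₀, RegSol K L (AltTw a 1 n) (twProj a 1 n)

/-- MAINB in characteristic 2, for weakly solvable `a`. -/
def St_mainB2 : Prop :=
  ∀ (K L : Type) [Field K] [CharP K 2] [Infinite K] [Field L]
    [Algebra K L] [FiniteDimensional K L] [IsGalois K L] (B : Type) [Group B] [Finite B]
    (a : B →* (L ≃ₐ[K] L)), Function.Surjective a → commutator a.ker = ⊤ →
    WeakSol K L B a → ∀ r : ℕ, Odd r → ((72 * Nat.card a.ker + 2).factorial) ^ 3 ≤ r →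
    ∃ n₀ : ℕ, ∀ n ≥ n₀, Dg (48 * r) n → RegSol K L (AltTw a 1 n) (twProj a 1 n)

theorem mainA2 (hh : Pc) : St_mainA2 := by
  intro K L _ _ _ _ _ _ _ B _ _ a ha hperf n₀
  obtain ⟨m, hm⟩ : ∃ m, m = Nat.card (L ≃ₐ[K] L) := ⟨_, rfl⟩
  obtain ⟨k, hk⟩ : ∃ k, k = ((3 * Nat.card (symProj a m).ker + 2).factorial) ^ 3 := ⟨_, rfl⟩
  have hm0 : 0 < m := by
    rw [hm]
    exact Nat.card_pos
  have hk0 : 0 < k := by
    rw [hk]
    positivity
  obtain ⟨Z, i1, i2, i3, i4, i5, i6, i7, i8, γ, hγ, hreg⟩ :=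
    Pool.Agent.N600.NS.reg_twofold K L B a ha m (by rw [hm]) k hk.ge
  obtain ⟨P, β, hβ, hβ2⟩ := hh.grpA (L ≃ₐ[K] L) B a ha m k hm0 hk0
  let P' := P.comap (γ : (Z ≃ₐ[RatFunc K] Z) →* SymEP (symProj a m) k)
  have hmap : P'.map (γ : (Z ≃ₐ[RatFunc K] Z) →* SymEP (symProj a m) k) = P :=
    Subgroup.map_comap_eq_self_of_surjective γ.surjective P
  let e : P' ≃* P := (γ.subgroupMap P').trans (MulEquiv.subgroupCongr hmap)
  obtain ⟨n₁, h₁⟩ := oneQ hh ((symProj (symProj a m) k).comp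
      (γ : (Z ≃ₐ[RatFunc K] Z) →* SymEP (symProj a m) k)) hγ hreg P' (β.comp (e : P' →* P))
      (hβ.comp e.surjective) a ha (fun u => hβ2 (e u)) hperf
  have hZf : Finite (Z ≃ₐ[RatFunc K] Z) := inferInstance
  have hidx : 0 < P'.index := Nat.pos_of_ne_zero Subgroup.index_ne_zero_of_finite
  obtain ⟨n, hn, hn2⟩ := exists_dg (8 * P'.index) (by omega) (n₀ + n₁)
  exact ⟨n, by omega, h₁ n (by omega) hn2⟩

theorem mainB2 (hh : Pc) : St_mainB2 := by
  intro K L _ _ _ _ _ _ _ B _ _ a ha hperf hw r hr hr2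
  have hker : Nat.card (a.comp (MonoidHom.fst B (Equiv.Perm (Fin 4)))).ker =
      24 * Nat.card a.ker := by
    have e : (a.comp (MonoidHom.fst B (Equiv.Perm (Fin 4)))).ker ≃
        Equiv.Perm (Fin 4) × a.ker :=
      { toFun := fun x => (x.1.2, ⟨x.1.1, x.2⟩)
        invFun := fun y => ⟨(y.2.1, y.1), y.2.2⟩
        left_inv := fun x => rfl
        right_inv := fun y => rfl }
    rw [Nat.card_congr e, Nat.card_prod, Nat.card_eq_fintype_card (α := Equiv.Perm (Fin 4)),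
      Fintype.card_perm, Fintype.card_fin]
    rfl
  have hws : WeakSol K L (B × Equiv.Perm (Fin 4))
      (a.comp (MonoidHom.fst B (Equiv.Perm (Fin 4)))) := by
    obtain ⟨L', i1, i2, i3, i4, i5, i6, s, hs⟩ := hw
    exact ⟨L', i1, i2, i3, i4, i5, i6, (MonoidHom.inl B (Equiv.Perm (Fin 4))).comp s, hs⟩
  obtain ⟨Z, i1, i2, i3, i4, i5, i6, i7, i8, γ, hγ, hreg⟩ :=
    Pool.Agent.TH59.WX.reg_sym_unif K L (B × Equiv.Perm (Fin 4))
      (a.comp (MonoidHom.fst B (Equiv.Perm (Fin 4)))) hws r (by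
        rw [hker]
        have h2 : 3 * (24 * Nat.card a.ker) + 2 = 72 * Nat.card a.ker + 2 := by ring
        rwa [h2])
  obtain ⟨P, β, hβ, hβ2, hidx⟩ := Pool.Agent.N342.EP.t_grp1 (L ≃ₐ[K] L) B a ha 1 r hr
  let P' := P.comap (γ : (Z ≃ₐ[RatFunc K] Z) →* _)
  have hmap : P'.map (γ : (Z ≃ₐ[RatFunc K] Z) →* _) = P :=
    Subgroup.map_comap_eq_self_of_surjective γ.surjective P
  let e : P' ≃* P := (γ.subgroupMap P').trans (MulEquiv.subgroupCongr hmap)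
  have hidx' := index_of_sgnIndex (sgnIndex_comap γ P (6 * r) _ hidx)
  obtain ⟨n₁, h₁⟩ := oneQ hh ((symProj (a.comp (MonoidHom.fst B (Equiv.Perm (Fin 4)))) r).comp
    (γ : (Z ≃ₐ[RatFunc K] Z) →* _)) hγ hreg P' (β.comp (e : P' →* P)) (hβ.comp e.surjective) a ha
    (fun u => hβ2 (e u)) hperf
  refine ⟨n₁, fun n hn hd => h₁ n hn ?_⟩
  have h3 : 8 * P'.index = 48 * r := by
    rw [hidx']
    ring
  rw [h3]
  exact hd

end Pool.Agent.H43W
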