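import Mathlib
import Pool.Agent.N70.PP.VocB
import Pool.Agent.H43W.Main

/-!
Project W2: alternating fibre powers in characteristic 2.
-/

set_option autoImplicit false
set_option linter.unusedSectionVars false
set_option linter.unusedSimpArgs false

namespace Pool.Agent.H43W

open Nfff32c05
open Pool.Agent.N70.PP
open Pool.Agent.H391R2 (Wr isRealizable_of isRealizable_quotient)
open Pool.Agent.H391R2.T4 (RegSol WeakSol HilbField finite_wr)
open Pool.Agent.Y793 (AWr AltTw twProj regSol_iso)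
open Pool.Agent.TH444.TW (RS RSK RegularOver regSol_of_regularOver)
open Pool.Agent.TH377.IG (SpecProp FP prFP)
open Pool.Agent.N600.ZQ (ReducesP SameP reducesP_of)
open Pool.Agent.N70.EP (twTrans ker_symm_comp pB FB exists_sec exists_kerEquiv exists_pull)
open Pool.Agent.N70.EP.Voc
open Pool.Agent.N70.PP.Voc

/-! ### Uniformity in the fields -/

/-- The general case, uniformly in the fields. -/
theorem mainAu2 (hh : Pc) (H B : Type) [Group H]
    [Finite H] [Group B] [Finite B] (a : B →* H) (ha : Function.Surjective a)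
    (hperf : commutator a.ker = ⊤) (n₀ : ℕ) : ∃ n ≥ n₀, RSK (ZMod 2) (twProj a 1 n) := by
  obtain ⟨K₀, L₀, i1, i2, i3, i4, i5, i6, i7, e₀, h⟩ := transferP hyp 2 H
  have hk := ker_symm_comp e₀ a
  obtain ⟨n, hn, h1⟩ := mainA2 hh K₀ L₀ B ((e₀.symm : H →* (L₀ ≃ₐ[K₀] L₀)).comp a)
    (e₀.symm.surjective.comp ha) (by rw [hk]; exact hperf) n₀
  refine ⟨n, hn, rsk_twP 2 a 1 _ e₀ h ?_⟩
  rw [MonoidHom.one_comp]
  exact h1

/-- The split case, uniformly in the fields. -/
theorem mainBu2 (hh : Pc) (H B : Type) [Group H]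
    [Finite H] [Group B] [Finite B] (a : B →* H) (s : H →* B) (hs : ∀ h, a (s h) = h)
    (hperf : commutator a.ker = ⊤) (r : ℕ) (hr : Odd r)
    (hr2 : ((72 * Nat.card a.ker + 2).factorial) ^ 3 ≤ r) :
    ∃ n₀ : ℕ, ∀ n ≥ n₀, Dg (48 * r) n → RSK (ZMod 2) (twProj a 1 n) := by
  obtain ⟨K₀, L₀, i1, i2, i3, i4, i5, i6, i7, e₀, h⟩ := transferP hyp 2 H
  have hk := ker_symm_comp e₀ a
  have ha : Function.Surjective a := fun h => ⟨s h, hs h⟩
  obtain ⟨n₀, hn₀⟩ := mainB2 hh K₀ L₀ B ((e₀.symm : H →* (L₀ ≃ₐ[K₀] L₀)).comp a)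
    (e₀.symm.surjective.comp ha) (by rw [hk]; exact hperf)
    (weak_of_split K₀ L₀ B _ (s.comp (e₀ : (L₀ ≃ₐ[K₀] L₀) →* H)) (fun ρ => by
      change e₀.symm (a (s (e₀ ρ))) = ρ
      rw [hs, e₀.symm_apply_apply])) r hr (by rw [hk]; exact hr2)
  refine ⟨n₀, fun n hn hd => rsk_twP 2 a 1 _ e₀ h ?_⟩
  rw [MonoidHom.one_comp]
  exact hn₀ n hn hd

/-! ### Fibre products -/

section fib

variable {p : ℕ} [Fact p.Prime]

/-- The property of `n` for the character `χ`. -/
def FibX (p : ℕ) [Fact p.Prime] {B W : Type} [Group B] [Group W] (α : B →* W) (χ : W →* ℤˣ)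
    (n : ℕ) : Prop :=
  ∀ (D : Subgroup B), Function.Surjective (aD α D) →
    RSK (ZMod p) (twProj (prFP α (aD α D)) (χ.comp (aD α D)) n)

theorem fibX_main (hh : Pc) (B W : Type) [Group B] [Finite B] [Group W]
    [Finite W] (α : B →* W) (hperf : commutator α.ker = ⊤) (r : ℕ) (hr : Odd r)
    (hr2 : ((72 * Nat.card α.ker + 2).factorial) ^ 3 ≤ r) :
    ∃ n₀ : ℕ, ∀ n ≥ n₀, Dg (48 * r) n → FibX 2 α 1 n := by
  have h1 : ∀ D : Subgroup B, ∃ n₀ : ℕ, ∀ n ≥ n₀, Dg (48 * r) n →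
      RSK (ZMod 2) (twProj (prFP α (aD α D)) 1 n) := by
    intro D
    obtain ⟨e⟩ := kerD α D
    have hfD : Finite D := inferInstance
    have hfF : Finite (FP α (aD α D)) := inferInstance
    refine mainBu2 hh D (FP α (aD α D)) (prFP α (aD α D))
      { toFun := fun d => ⟨((d : B), d), rfl⟩
        map_one' := rfl
        map_mul' := fun _ _ => rfl } (fun d => rfl) (Y793.perf_congr e hperf) r hr ?_
    rw [← Nat.card_congr e.toEquiv]
    exact hr2
  choose κ hκ using h1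
  have hfS : Finite (Subgroup B) := inferInstance
  obtain ⟨k₀, hk₀⟩ : ∃ k₀, ∀ D, κ D ≤ k₀ := by
    obtain ⟨k₀, hk₀⟩ := (Set.finite_range κ).bddAbove
    exact ⟨k₀, fun D => hk₀ ⟨D, rfl⟩⟩
  refine ⟨k₀, fun n hn hd D _ => ?_⟩
  rw [MonoidHom.one_comp]
  exact hκ D n ((hk₀ D).trans hn) hd

/-- Realizations of `D` give realizations of the fibre powers. -/
theorem FibX.red {B W : Type} [Group B] [Finite B] [Group W] [Finite W] {α : B →* W} {n : ℕ}
    {χ : W →* ℤˣ} (h : FibX p α χ n) (D : Subgroup B) (hD : Function.Surjective (aD α D)) :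
    ReducesP p D (AltTw α χ n) := by
  have hfF : Finite (FP α (aD α D)) := inferInstance
  have hW : Finite (Wr (FP α (aD α D)) n) := finite_wr _ _
  have hW2 : Finite (Wr B n) := finite_wr _ _
  have hf1 : Finite (AltTw (prFP α (aD α D)) (χ.comp (aD α D)) n) := inferInstance
  have hf2 : Finite (AltTw α χ n) := inferInstance
  exact reducesP_of (twProj (prFP α (aD α D)) (χ.comp (aD α D)) n)
    (fun K _ _ => rsk_field (h D hD) K) (twQ α χ n D) (twQ_surj α χ n D hD)

/-- Weakly solvable problems have regular solutions. -/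
theorem FibX.weak {B W : Type} [Group B] [Finite B] [Group W] [Finite W] {α : B →* W} {n : ℕ}
    {χ : W →* ℤˣ} (h : FibX p α χ n) (K L : Type) [Field K] [CharP K p] [Field L] [Algebra K L]
    [FiniteDimensional K L] [IsGalois K L] (ε : (L ≃ₐ[K] L) ≃* W)
    (hw : WeakSol K L B (ε.symm.toMonoidHom.comp α)) :
    RegSol K L (AltTw α χ n) (ε.symm.toMonoidHom.comp (twProj α χ n)) := by
  obtain ⟨L', i1, i2, i3, i4, i5, i6, s, hs⟩ := hw
  have hs' : ∀ ρ, α (s ρ) = ε (ρ.restrictNormal L) := by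
    intro ρ
    rw [← hs ρ]
    exact (ε.apply_symm_apply _).symm
  have hres : Function.Surjective (AlgEquiv.restrictNormalHom L : (L' ≃ₐ[K] L') →* (L ≃ₐ[K] L)) :=
    AlgEquiv.restrictNormalHom_surjective L'
  have hD : Function.Surjective (aD α s.range) := by
    intro w
    obtain ⟨ρ, hρ⟩ := hres (ε.symm w)
    refine ⟨⟨s ρ, ρ, rfl⟩, ?_⟩
    change α (s ρ) = w
    rw [hs']
    change ε (AlgEquiv.restrictNormalHom L ρ) = w
    rw [hρ, ε.apply_symm_apply]
  have hfF : Finite (FP α (aD α s.range)) := inferInstance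
  have hW : Finite (Wr (FP α (aD α s.range)) n) := finite_wr _ _
  have hW2 : Finite (Wr B n) := finite_wr _ _
  have hf1 : Finite (AltTw (prFP α (aD α s.range)) (χ.comp (aD α s.range)) n) := inferInstance
  have hf2 : Finite (AltTw α χ n) := inferInstance
  have h1 := Pool.Agent.N75.EP.t_pul (ZMod p) s.range _ (L' ≃ₐ[K] L')
    (twProj (prFP α (aD α s.range)) (χ.comp (aD α s.range)) n) s.rangeRestrict
    (MonoidHom.rangeRestrict_surjective _) (h s.range hD)
  have hf3 : Finite (FP (twProj (prFP α (aD α s.range)) (χ.comp (aD α s.range)) n)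
    s.rangeRestrict) := inferInstance
  have h2 := reg_all h1 K L' (MulEquiv.refl _)
  refine Pool.Agent.W200.IJ.regSol_quot (L' := L') _ _
    (fibQ α χ n s.range s.rangeRestrict) ?_ ?_ ?_ h2
  · intro y
    obtain ⟨d, hd⟩ := hD (twProj α χ n y)
    obtain ⟨ρ, hρ⟩ := MonoidHom.rangeRestrict_surjective s d
    obtain ⟨u, hu, -⟩ := fibQ_lift α χ n s.range s.rangeRestrict y ρ (by rw [hρ, hd])
    exact ⟨u, hu⟩
  · intro u
    have h3 := fibQ_pr α χ n s.range s.rangeRestrict u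
    have h4 : twProj α χ n (fibQ α χ n s.range s.rangeRestrict u) =
        ε ((prFP (twProj (prFP α (aD α s.range)) (χ.comp (aD α s.range)) n)
          s.rangeRestrict u).restrictNormal L) := h3.trans (hs' _)
    change ε.symm (twProj α χ n (fibQ α χ n s.range s.rangeRestrict u)) = _
    rw [h4, ε.symm_apply_apply]
    rfl
  · intro ρ hρ
    have h3 : aD α s.range (s.rangeRestrict ρ) = 1 := by
      change α (s ρ) = 1
      rw [hs', hρ, map_one]
    refine fibQ_lift α χ n s.range s.rangeRestrict _ ρ ?_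
    rw [h3]
    exact map_one (twProj α χ n)

end fib

section main

variable (hh : Pc) {B W : Type} [Group B] [Finite B] [Group W]
  [Finite W] (α : B →* W) (hα : Function.Surjective α) (hperf : commutator α.ker = ⊤)

include hh hα hperf

/-- The general case. -/
theorem fib_one2 (n₀ : ℕ) :
    ∃ n ≥ n₀, OccursIff 2 (TwPow α 1 n) W ∧ SolvableAll 2 (twPr α 1 n) := by
  obtain ⟨n, hn, h⟩ := mainAu2 hh W B α hα hperf (n₀ + 2)
  have hf : Finite (Wr B n) := finite_wr B n
  have hf2 : Finite (TwPow α 1 n) := Finite.of_injective Subtype.val Subtype.val_injective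
  have h1 : RSK (ZMod 2) (twPr α 1 n) := RSK.congr h (twE α 1 n).symm (fun _ => rfl)
  exact ⟨n, by omega, occursIff_of (sameP_of_rsk (twPr α 1 n) (twPr_surj' α 1 n hα (by omega)) h1),
    solvableAll_of h1⟩

/-- Explicit degrees. -/
theorem fib_all2 (r : ℕ) (hr : Odd r) (hr2 : ((72 * Nat.card α.ker + 2).factorial) ^ 3 ≤ r) :
    ∃ q₀ : ℕ, ∀ q ≥ q₀, q.Prime → 48 * r ∣ q + 1 →
      (∀ D : Subgroup B, (∀ w : W, ∃ d ∈ D, α d = w) →
        OccursIf 2 (TwPow α 1 (q + 48 * r + 1)) D) ∧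
      (∀ (K L : Type) [Field K] [CharP K 2] [Field L] [Algebra K L] [FiniteDimensional K L]
        [IsGalois K L] (ε : (L ≃ₐ[K] L) ≃* W),
        WeakSolutionOver (ε.symm.toMonoidHom.comp α) K →
        Solvable (ε.symm.toMonoidHom.comp (twPr α 1 (q + 48 * r + 1)))) ∧
      ((∃ s : W →* B, ∀ w, α (s w) = w) →
        OccursIff 2 (TwPow α 1 (q + 48 * r + 1)) W ∧
        SolvableAll 2 (twPr α 1 (q + 48 * r + 1))) := by
  obtain ⟨n₀, hn₀⟩ := fibX_main hh B W α hperf r hr hr2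
  refine ⟨n₀ + 2, fun q hq hqp hd => ?_⟩
  obtain ⟨n, hn⟩ : ∃ n, n = q + 48 * r + 1 := ⟨_, rfl⟩
  rw [← hn]
  have hdeg : Dg (48 * r) n := by
    refine ⟨q, hqp, by omega, ?_⟩
    obtain ⟨c, hc⟩ := hd
    exact ⟨c + 1, by rw [hn, mul_add, ← hc]; ring⟩
  have hF : FibX 2 α 1 n := hn₀ n (by omega) hdeg
  have hf : Finite (Wr B n) := finite_wr B n
  have hf2 : Finite (TwPow α 1 n) := Finite.of_injective Subtype.val Subtype.val_injective
  have hf3 : Finite (AltTw α 1 n) := inferInstance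
  have hredE : ReducesP 2 (AltTw α 1 n) (TwPow α 1 n) :=
    reducesP_quot (twE α 1 n).symm.toMonoidHom (twE α 1 n).symm.surjective
  have h1 : ∀ D : Subgroup B, (∀ w : W, ∃ d ∈ D, α d = w) → ReducesP 2 D (TwPow α 1 n) := by
    intro D hD
    have h2 := hF.red D (fun w => by
      obtain ⟨d, hd, hw⟩ := hD w
      exact ⟨⟨d, hd⟩, hw⟩)
    exact ⟨fun κ _ _ _ h => hredE.1 κ (h2.1 κ h), fun K _ _ hK h => hredE.2.1 K hK (h2.2.1 K hK h),
      fun K _ _ h => hredE.2.2 K (h2.2.2 K h)⟩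
  have h2 : ∀ (K L : Type) [Field K] [CharP K 2] [Field L] [Algebra K L] [FiniteDimensional K L]
        [IsGalois K L] (ε : (L ≃ₐ[K] L) ≃* W),
        WeakSol K L B (ε.symm.toMonoidHom.comp α) →
        Solvable (ε.symm.toMonoidHom.comp (twPr α 1 n)) := by
    intro K L _ _ _ _ _ _ ε hw
    have h3 := hF.weak K L ε hw
    exact solvable_of_regSol (regSol_iso K L _ _ _ _ (twE α 1 n).symm (fun z => rfl) h3)
  refine ⟨fun D hD => occursIf_of (h1 D hD), fun K L _ _ _ _ _ _ ε hw =>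
    h2 K L ε (weak_of_over _ hw), ?_⟩
  rintro ⟨s, hs⟩
  constructor
  · apply occursIff_of
    refine sameP_of (reducesP_quot (twPr α 1 n) (twPr_surj' α 1 n hα (by omega))) ?_
    have h3 : ReducesP 2 W s.range := reducesP_quot s.rangeRestrict
      (MonoidHom.rangeRestrict_surjective s)
    have h4 := h1 s.range (fun w => ⟨s w, ⟨w, rfl⟩, hs w⟩)
    exact ⟨fun κ _ _ _ h => h4.1 κ (h3.1 κ h), fun K _ _ hK h => h4.2.1 K hK (h3.2.1 K hK h),
      fun K _ _ h => h4.2.2 K (h3.2.2 K h)⟩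
  · intro K L _ _ _ _ _ _ ε
    refine h2 K L ε ?_
    refine weak_of_split K L B _ (s.comp (ε : (L ≃ₐ[K] L) →* W)) (fun ρ => ?_)
    change ε.symm (α (s (ε ρ))) = ρ
    rw [hs, ε.symm_apply_apply]

end main

end Pool.Agent.H43W
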