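import Mathlib
import Pool.Agent.N70.PP.VocB
import Pool.Agent.N70.PP.VocKB

/-!
Project W2: fibre powers and kernels in characteristic 2, all characters, from the main theorem.
-/

set_option autoImplicit false
set_option linter.unusedSectionVars false
set_option linter.unusedSimpArgs false

namespace Pool.Agent.H43W

open Nfff32c05
open Pool.Agent.N70.PP
open Pool.Agent.H391R2 (Wr isRealizable_of isRealizable_quotient)
open Pool.Agent.H391R2.T4 (RegSol WeakSol HilbField finite_wr)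
open Pool.Agent.Y793 (AWr AltTw twProj regSol_iso)
open Pool.Agent.TH59.WX (finite_of_kernel)
open Pool.Agent.TH444.TW (RS RSK RegularOver regSol_of_regularOver)
open Pool.Agent.TH377.IG (SpecProp FP prFP)
open Pool.Agent.N600.UK (CL cl_of_center cl_iso Out cls cls_eq_one conj_inj)
open Pool.Agent.N600.ZQ (ReducesP RealizedP SameP reducesP_of FratCover)
open Pool.Agent.N70.EP (twTrans ker_symm_comp pB FB exists_sec exists_kerEquiv exists_pull)
open Pool.Agent.N70.EP.Voc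
open Pool.Agent.N70.PP.Voc

/-- The degrees for all characters in characteristic 2. -/
def Deg2 (c n : ℕ) : Prop := ∃ q : ℕ, q.Prime ∧ n = q + (c + 1) ∧ n % (8 * c) = c

/-- MAINB in characteristic 2 (helper31), all characters. -/
def St_mB2 : Prop :=
  ∀ (K L : Type) [Field K] [CharP K 2] [Infinite K] [Field L]
    [Algebra K L] [FiniteDimensional K L] [IsGalois K L] (B : Type) [Group B] [Finite B]
    (a : B →* (L ≃ₐ[K] L)), Function.Surjective a → commutator a.ker = ⊤ →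
    WeakSol K L B a → ∀ r : ℕ, Odd r → ((72 * Nat.card a.ker + 2).factorial) ^ 3 ≤ r →
    ∃ n₀ : ℕ, ∀ n ≥ n₀, Deg2 (6 * r) n → ∀ χ : (L ≃ₐ[K] L) →* ℤˣ,
      RegSol K L (AltTw a χ n) (twProj a χ n)

/-- The split case, uniformly in the fields. -/
theorem mBu2 (hB : St_mB2) (H B : Type) [Group H]
    [Finite H] [Group B] [Finite B] (a : B →* H) (s : H →* B) (hs : ∀ h, a (s h) = h)
    (hperf : commutator a.ker = ⊤) (r : ℕ) (hr : Odd r)
    (hr2 : ((72 * Nat.card a.ker + 2).factorial) ^ 3 ≤ r) :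
    ∃ n₀ : ℕ, ∀ n ≥ n₀, Deg2 (6 * r) n → ∀ χ : H →* ℤˣ, RSK (ZMod 2) (twProj a χ n) := by
  obtain ⟨K₀, L₀, i1, i2, i3, i4, i5, i6, i7, e₀, h⟩ := transferP hyp 2 H
  have hk := ker_symm_comp e₀ a
  have ha : Function.Surjective a := fun h => ⟨s h, hs h⟩
  obtain ⟨n₀, hn₀⟩ := hB K₀ L₀ B ((e₀.symm : H →* (L₀ ≃ₐ[K₀] L₀)).comp a)
    (e₀.symm.surjective.comp ha) (by rw [hk]; exact hperf)
    (weak_of_split K₀ L₀ B _ (s.comp (e₀ : (L₀ ≃ₐ[K₀] L₀) →* H)) (fun ρ => by
      change e₀.symm (a (s (e₀ ρ))) = ρ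
      rw [hs, e₀.symm_apply_apply])) r hr (by rw [hk]; exact hr2)
  exact ⟨n₀, fun n hn hd χ => rsk_twP 2 a χ _ e₀ h (hn₀ n hn hd _)⟩

theorem fibP_main2 (hB : St_mB2) (B W : Type) [Group B] [Finite B] [Group W]
    [Finite W] (α : B →* W) (hperf : commutator α.ker = ⊤) (r : ℕ) (hr : Odd r)
    (hr2 : ((72 * Nat.card α.ker + 2).factorial) ^ 3 ≤ r) :
    ∃ n₀ : ℕ, ∀ n ≥ n₀, Deg2 (6 * r) n → FibP 2 α n := by
  have h1 : ∀ D : Subgroup B, ∃ n₀ : ℕ, ∀ n ≥ n₀, Deg2 (6 * r) n → ∀ χ : D →* ℤˣ,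
      RSK (ZMod 2) (twProj (prFP α (aD α D)) χ n) := by
    intro D
    obtain ⟨e⟩ := kerD α D
    have hfD : Finite D := inferInstance
    have hfF : Finite (FP α (aD α D)) := inferInstance
    refine mBu2 hB D (FP α (aD α D)) (prFP α (aD α D))
      { toFun := fun d => ⟨((d : B), d), rfl⟩
        map_one' := rfl
        map_mul' := fun _ _ => rfl } (fun d => rfl) (Y793.perf_congr e hperf) r hr ?_
    rw [← Nat.card_congr e.toEquiv]
    exact hr2
  choose κ hκ using h1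
  have hfS : Finite (Subgroup B) := inferInstance
  obtain ⟨k₀, hk₀⟩ : ∃ k₀, ∀ D, κ D ≤ k₀ := by
    obtain ⟨k₀, hk₀⟩ := (Set.finite_range κ).bddAbove
    exact ⟨k₀, fun D => hk₀ ⟨D, rfl⟩⟩
  exact ⟨k₀, fun n hn hd χ D _ => hκ D n ((hk₀ D).trans hn) hd _⟩

theorem deg2_of {r q : ℕ} (hr : Odd r) (hq : q.Prime) (hd : 48 * r ∣ q + 1) :
    Deg2 (6 * r) (q + 6 * r + 1) := by
  refine ⟨q, hq, by omega, ?_⟩
  obtain ⟨c, hc⟩ := hd
  have h1 : q + 6 * r + 1 = 6 * r + (8 * (6 * r)) * c := by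
    have h2 : 48 * r * c = (8 * (6 * r)) * c := by ring
    omega
  rw [h1, Nat.add_mul_mod_self_left, Nat.mod_eq_of_lt]
  have hr0 : 0 < r := by
    obtain ⟨r', hr'⟩ := hr
    omega
  omega

theorem bound_le2 {g r q : ℕ} (hr : ((72 * g + 2).factorial) ^ 3 ≤ r) (hg : 0 < g) :
    2 * (g + 4) ≤ q + 6 * r + 1 := by
  have h1 : 72 * g + 2 ≤ (72 * g + 2).factorial := Nat.self_le_factorial _
  have h2 : (72 * g + 2).factorial ^ 1 ≤ (72 * g + 2).factorial ^ 3 :=
    Nat.pow_le_pow_right (Nat.factorial_pos _) (by omega)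
  rw [pow_one] at h2
  omega

section main

variable (hB : St_mB2) {B W : Type} [Group B] [Finite B] [Group W]
  [Finite W] (α : B →* W) (hα : Function.Surjective α) (hperf : commutator α.ker = ⊤)

include hB hα hperf

/-- The characters. -/
theorem fib_allT (r : ℕ) (hr : Odd r) (hr2 : ((72 * Nat.card α.ker + 2).factorial) ^ 3 ≤ r) :
    ∃ q₀ : ℕ, ∀ q ≥ q₀, q.Prime → 48 * r ∣ q + 1 → ∀ χ : W →* ℤˣ,
      (∀ D : Subgroup B, (∀ w : W, ∃ d ∈ D, α d = w) →
        OccursIf 2 (TwPow α χ (q + 6 * r + 1)) D) ∧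
      (∀ (K L : Type) [Field K] [CharP K 2] [Field L] [Algebra K L] [FiniteDimensional K L]
        [IsGalois K L] (ε : (L ≃ₐ[K] L) ≃* W),
        WeakSolutionOver (ε.symm.toMonoidHom.comp α) K →
        Solvable (ε.symm.toMonoidHom.comp (twPr α χ (q + 6 * r + 1)))) ∧
      ((∃ s : W →* B, ∀ w, α (s w) = w) →
        OccursIff 2 (TwPow α χ (q + 6 * r + 1)) W ∧
        SolvableAll 2 (twPr α χ (q + 6 * r + 1))) := by
  obtain ⟨n₀, hn₀⟩ := fibP_main2 hB B W α hperf r hr hr2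
  refine ⟨n₀ + 2, fun q hq hqp hd χ => ?_⟩
  obtain ⟨n, hn⟩ : ∃ n, n = q + 6 * r + 1 := ⟨_, rfl⟩
  rw [← hn]
  have hdeg : Deg2 (6 * r) n := by
    rw [hn]
    exact deg2_of hr hqp hd
  have hF : FibP 2 α n := hn₀ n (by omega) hdeg
  have hf : Finite (Wr B n) := finite_wr B n
  have hf2 : Finite (TwPow α χ n) := Finite.of_injective Subtype.val Subtype.val_injective
  have hf3 : Finite (AltTw α χ n) := inferInstance
  have hredE : ReducesP 2 (AltTw α χ n) (TwPow α χ n) :=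
    reducesP_quot (twE α χ n).symm.toMonoidHom (twE α χ n).symm.surjective
  have h1 : ∀ D : Subgroup B, (∀ w : W, ∃ d ∈ D, α d = w) → ReducesP 2 D (TwPow α χ n) := by
    intro D hD
    have h2 := hF.red χ D (fun w => by
      obtain ⟨d, hd, hw⟩ := hD w
      exact ⟨⟨d, hd⟩, hw⟩)
    exact ⟨fun κ _ _ _ h => hredE.1 κ (h2.1 κ h), fun K _ _ hK h => hredE.2.1 K hK (h2.2.1 K hK h),
      fun K _ _ h => hredE.2.2 K (h2.2.2 K h)⟩
  have h2 : ∀ (K L : Type) [Field K] [CharP K 2] [Field L] [Algebra K L] [FiniteDimensional K L]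
        [IsGalois K L] (ε : (L ≃ₐ[K] L) ≃* W),
        WeakSol K L B (ε.symm.toMonoidHom.comp α) →
        Solvable (ε.symm.toMonoidHom.comp (twPr α χ n)) := by
    intro K L _ _ _ _ _ _ ε hw
    have h3 := hF.weak χ K L ε hw
    exact solvable_of_regSol (regSol_iso K L _ _ _ _ (twE α χ n).symm (fun z => rfl) h3)
  refine ⟨fun D hD => occursIf_of (h1 D hD), fun K L _ _ _ _ _ _ ε hw =>
    h2 K L ε (weak_of_over _ hw), ?_⟩
  rintro ⟨s, hs⟩
  constructor
  · apply occursIff_of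
    refine sameP_of (reducesP_quot (twPr α χ n) (twPr_surj' α χ n hα (by omega))) ?_
    have h3 : ReducesP 2 W s.range := reducesP_quot s.rangeRestrict
      (MonoidHom.rangeRestrict_surjective s)
    have h4 := h1 s.range (fun w => ⟨s w, ⟨w, rfl⟩, hs w⟩)
    exact ⟨fun κ _ _ _ h => h4.1 κ (h3.1 κ h), fun K _ _ hK h => h4.2.1 K hK (h3.2.1 K hK h),
      fun K _ _ h => h4.2.2 K (h3.2.2 K h)⟩
  · intro K L _ _ _ _ _ _ ε
    refine h2 K L ε ?_
    refine weak_of_split K L B _ (s.comp (ε : (L ≃ₐ[K] L) →* W)) (fun ρ => ?_)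
    change ε.symm (α (s (ε ρ))) = ρ
    rw [hs, ε.symm_apply_apply]

end main

/-! ### Kernels -/

/-- The numbers `n = q + 6 r + 1`, `r` odd, `r ≥ ((72 |G| + 2)!) ^ 3`, `q ≥ κ G r` a prime,
`q ≡ -1` modulo `48 r`. -/
def Numbers2 (κ : ∀ (G : Type) [Group G], ℕ → ℕ) (G : Type) [Group G] : Set ℕ :=
  {n | ∃ r q : ℕ, Odd r ∧ ((72 * Nat.card G + 2).factorial) ^ 3 ≤ r ∧ κ G r ≤ q ∧ q.Prime ∧
    48 * r ∣ q + 1 ∧ n = q + 6 * r + 1}

/-- The smallest class of groups which
* contains `G ≀ A_n` for every nontrivial finite perfect group `G` with trivial centre such that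
  `Inn G` has a complement in `Aut G` and every `n` in `Numbers2 κ G`,
* contains `G ≀ S_n` for every nontrivial finite group `G` with trivial centre such that `Inn G` has a
  complement in `Aut G` and every `n ≥ ((3 |G| + 2)!) ^ 3`,
* contains the finite groups with trivial centre all of whose automorphisms are inner which occur
  regularly over `F_2`,
* contains `T ≀ S_n` if it contains the nontrivial group `T` and `n ≥ 2 (|T| + 2)`,
* is closed under finite direct products, direct factors, isomorphisms and characteristic extensions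
  (it contains `T` if it contains `C` and `T / C` for a characteristic subgroup `C` of `T`). -/
inductive Kernels2 (κ : ∀ (G : Type) [Group G], ℕ → ℕ) :
    ∀ (T : Type) [Group T], Prop
  | alternating (G : Type) [Group G] (hG : Centreless G) (hP : commutator G = ⊤)
      (hC : ∃ C : Subgroup (MulAut G), IsCompl C (InnerAut G)) (n : ℕ) (hn : n ∈ Numbers2 κ G) :
      Kernels2 κ (AltWreath G n)
  | symmetric (G : Type) [Group G] (hG : Centreless G)
      (hC : ∃ C : Subgroup (MulAut G), IsCompl C (InnerAut G)) (n : ℕ)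
      (hn : ((3 * Nat.card G + 2).factorial) ^ 3 ≤ n) : Kernels2 κ (Wreath G n)
  | complete (T : Type) [Group T] [Finite T] (hZ : Subgroup.center T = ⊥)
      (hI : ∀ a : MulAut T, ∃ g : T, a = MulAut.conj g) (hR : OccursRegularly (ZMod 2) T) :
      Kernels2 κ T
  | power (T : Type) [Group T] [Nontrivial T] (h : Kernels2 κ T) (n : ℕ)
      (hn : 2 * (Nat.card T + 2) ≤ n) : Kernels2 κ (Wreath T n)
  | prod (I : Type) [Finite I] (T : I → Type) [∀ i, Group (T i)] (h : ∀ i, Kernels2 κ (T i)) :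
      Kernels2 κ (∀ i, T i)
  | factor (S T : Type) [Group S] [Group T] (h : Kernels2 κ (S × T)) : Kernels2 κ S
  | extension (T : Type) [Group T] (C : Subgroup T) [C.Characteristic] (h : Kernels2 κ C)
      (h' : Kernels2 κ (T ⧸ C)) : Kernels2 κ T
  | iso (T T' : Type) [Group T] [Group T'] (e : T ≃* T') (h : Kernels2 κ T) : Kernels2 κ T'

theorem rsk_kerA2 (G : Type) [Group G] [Finite G] (hB : St_mB2)
    (hZ : ∀ z : G, (∀ g : G, z * g = g * z) → z = 1) (hperf : commutator G = ⊤)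
    (r : ℕ) (hr : Odd r) (hr2 : ((72 * Nat.card G + 2).factorial) ^ 3 ≤ r) :
    ∃ n₀ : ℕ, ∀ n ≥ n₀, Deg2 (6 * r) n → ∀ (Γ : Type) [Group Γ] [Finite Γ]
      (a : Γ →* MulAut G) (χ : Γ →* ℤˣ), RSK (ZMod 2) (twProj (pB ((cls G).comp a)) χ n) := by
  have hfin : Finite (MulAut G) := Finite.of_injective (fun a : MulAut G => (a : G → G))
    DFunLike.coe_injective
  have h1 : ∀ W : Subgroup (MulAut G × ℤˣ), ∃ n₀ : ℕ, ∀ n ≥ n₀, Deg2 (6 * r) n →
      RSK (ZMod 2) (twProj (pB ((cls G).comp ((MonoidHom.fst (MulAut G) ℤˣ).comp W.subtype)))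
        ((MonoidHom.snd (MulAut G) ℤˣ).comp W.subtype) n) := by
    intro W
    obtain ⟨s, hs⟩ := sec_of_lift ((MonoidHom.fst (MulAut G) ℤˣ).comp W.subtype)
    obtain ⟨e⟩ := exists_kerEquiv ((cls G).comp ((MonoidHom.fst (MulAut G) ℤˣ).comp W.subtype)) hZ
    have hfW : Finite W := inferInstance
    obtain ⟨n₀, hn₀⟩ := mBu2 hB W _
      (pB ((cls G).comp ((MonoidHom.fst (MulAut G) ℤˣ).comp W.subtype))) s hs
      (Y793.perf_congr e hperf) r hr (by
        rw [← Nat.card_congr e.toEquiv]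
        exact hr2)
    exact ⟨n₀, fun n hn hd => hn₀ n hn hd _⟩
  choose κ hκ using h1
  have hfS : Finite (Subgroup (MulAut G × ℤˣ)) := inferInstance
  obtain ⟨k₀, hk₀⟩ : ∃ k₀, ∀ W, κ W ≤ k₀ := by
    obtain ⟨k₀, hk₀⟩ := (Set.finite_range κ).bddAbove
    exact ⟨k₀, fun W => hk₀ ⟨W, rfl⟩⟩
  refine ⟨k₀, fun n hn hd Γ _ _ a χ => ?_⟩
  let W : Subgroup (MulAut G × ℤˣ) := (a.prod χ).range
  let ρ : Γ →* W := (a.prod χ).rangeRestrict
  have h2 := hκ W n ((hk₀ W).trans hn) hd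
  have hW : Finite (Wr (FB ((cls G).comp ((MonoidHom.fst (MulAut G) ℤˣ).comp W.subtype))) n) :=
    finite_wr _ _
  have h3 := Pool.Agent.N75.EP.t_pul (ZMod 2) W _ Γ
        (twProj (pB ((cls G).comp ((MonoidHom.fst (MulAut G) ℤˣ).comp W.subtype)))
        ((MonoidHom.snd (MulAut G) ℤˣ).comp W.subtype) n) ρ
        (MonoidHom.rangeRestrict_surjective _) h2
  obtain ⟨e, he⟩ := exists_pull ((cls G).comp ((MonoidHom.fst (MulAut G) ℤˣ).comp W.subtype)) ρ
    ((MonoidHom.snd (MulAut G) ℤˣ).comp W.subtype) n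
  exact RSK.congr h3 e he

/-- The bounds. -/
theorem exists_kappa2 (hB : St_mB2) : ∃ κ : (∀ (G : Type) [Group G], ℕ → ℕ), ∀ (G : Type) [Group G],
    Centreless G → commutator G = ⊤ → ∀ n ∈ Numbers2 κ G, GoodP 2 G n := by
  have h1 : ∀ (G : Type) [Group G] (r : ℕ), ∃ k₀ : ℕ, Centreless G → commutator G = ⊤ → Odd r →
      ((72 * Nat.card G + 2).factorial) ^ 3 ≤ r → ∀ n ≥ k₀, Deg2 (6 * r) n →
      ∀ (Γ : Type) [Group Γ] [Finite Γ] (a : Γ →* MulAut G) (χ : Γ →* ℤˣ),
        RSK (ZMod 2) (twProj (N70.EP.pB ((Pool.Agent.N600.UK.cls G).comp a)) χ n) := by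
    intro G _ r
    by_cases h : Centreless G ∧ commutator G = ⊤ ∧ Odd r ∧
        ((72 * Nat.card G + 2).factorial) ^ 3 ≤ r
    · obtain ⟨hG, hP, hr, hr'⟩ := h
      have h2 := hG.finite
      obtain ⟨k₀, hk₀⟩ := rsk_kerA2 G hB (cl_of_center hG.center) hP r hr hr'
      exact ⟨k₀, fun _ _ _ _ => hk₀⟩
    · exact ⟨0, fun a b c d => absurd ⟨a, b, c, d⟩ h⟩
  choose κ hκ using h1
  refine ⟨κ, fun G _ hG hP n hn => ?_⟩
  obtain ⟨r, q, hr, hr', hq, hqp, hd, rfl⟩ := hn
  have h2 := hG.finite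
  exact ⟨bound_le2 hr' Nat.card_pos, hκ G r hG hP hr hr' _ (by omega) (deg2_of hr hqp hd)⟩

/-- The groups of the class. -/
theorem kernels_main2 (κ : ∀ (G : Type) [Group G], ℕ → ℕ)
    (hκ : ∀ (G : Type) [Group G], Centreless G → commutator G = ⊤ →
      ∀ n ∈ Numbers2 κ G, GoodP 2 G n) (T : Type) [Group T]
    (hT : Kernels2 κ T) : Finite T ∧ CL T ∧ GoodKerP 2 T := by
  have gd : St_gdp 2 := N555.PP.t_gdp 2
  induction hT with
  | alternating G hG hP hC n hn =>
    have h2 := hG.finite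
    have h3 := hG.nontrivial
    have h4 : Finite (Wr G n) := finite_wr G n
    refine ⟨Finite.of_injective Subtype.val Subtype.val_injective, ?_, ?_⟩
    · have hn1 := (hκ G hG hP n hn).1
      intro z hz
      exact N478.EP.triv_of_comm (cl_of_center hG.center) z (fun k g => hz (N891.EP.sg k g))
    · intro K L X _ _ _ _ _ _ _ _ α hα hι
      have hf4 : Finite (AltWreath G n) := Finite.of_injective Subtype.val Subtype.val_injective
      have hfX : Finite X := finite_of_kernel α hι.some.symm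
      have h5 := GoodP.compl (cl_of_center hG.center) hC (hκ G hG hP n hn) α hα hι
      exact reg_all h5 K L (MulEquiv.refl _)
  | symmetric G hG hC n hn =>
    have h2 := hG.finite
    have h3 := hG.nontrivial
    obtain ⟨h4, h5, h6⟩ := (N600.UK.Univ.wreath G hG.center hC n hn).main
    refine ⟨h4, h5, ?_⟩
    intro K L X _ _ _ _ _ _ _ _ α hα hι
    exact h6 K L X α hα hι
  | complete T hZ hI hR =>
    exact ⟨inferInstance, cl_of_center hZ, good_completeP (cl_of_center hZ) hI hR⟩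
  | power T h n hn ih =>
    obtain ⟨h1, h2, h3⟩ := ih
    exact ⟨finite_wr T n, fun x hx => N600.UK.center_wr h2 x hx, gd.wr T h2 h3 n hn⟩
  | prod I T h ih =>
    have h1 : ∀ i, Finite (T i) := fun i => (ih i).1
    refine ⟨inferInstance, ?_, gd.pi I T (fun i => (ih i).2.1) (fun i => (ih i).2.2)⟩
    intro z hz
    classical
    funext i
    refine (ih i).2.1 _ fun g => ?_
    have h2 := congrFun (hz (Pi.mulSingle i g)) i
    rw [Pi.mul_apply, Pi.mul_apply, Pi.mulSingle_eq_same] at h2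
    exact h2
  | factor A B h ih =>
    obtain ⟨h1, h2, h3⟩ := ih
    refine ⟨Finite.of_injective (fun a : A => (a, (1 : B))) (fun a b hab => congrArg Prod.fst hab),
      ?_, gd.factor A B h3⟩
    intro z hz
    have h4 : ((z, 1) : A × B) = 1 := by
      apply h2
      rintro ⟨a, b⟩
      refine Prod.ext (hz a) ?_
      change 1 * b = b * 1
      rw [one_mul, mul_one]
    exact congrArg Prod.fst h4
  | extension T C h h' ih ih' =>
    obtain ⟨h1, h2, h3⟩ := ih
    obtain ⟨h4, h5, h6⟩ := ih'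
    have hfin : Finite T := Finite.of_subgroup_quotient C
    refine ⟨hfin, ?_, gd.char T C h3 h6⟩
    intro z hz
    have h7 : (QuotientGroup.mk' C z) = 1 := by
      apply h5
      intro g
      obtain ⟨g, rfl⟩ := QuotientGroup.mk'_surjective C g
      rw [← map_mul, hz g, map_mul]
    rw [QuotientGroup.mk'_apply, QuotientGroup.eq_one_iff] at h7
    have h8 : (⟨z, h7⟩ : C) = 1 := by
      apply h2
      intro g
      exact Subtype.ext (hz g)
    exact congrArg Subtype.val h8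
  | iso T T' e h ih =>
    obtain ⟨h1, h2, h3⟩ := ih
    exact ⟨Finite.of_equiv _ e.toEquiv, cl_iso e h2, gd.iso T T' e h3⟩


end Pool.Agent.H43W
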