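import Mathlib
import Pool.Agent.H43W.Fib
import Pool.Agent.H43W.Alt
import Pool.Agent.XE31.C2.Fin
import Pool.Agent.Y140.AW.Fin
import Pool.Agent.N70.PP.Fin

/-!
Project W2: all pieces (parity theorem by helper31).
-/

set_option autoImplicit false

namespace Pool.Agent.H43W

theorem pc : Pc where
  mt := Y688.AW.t_mt
  res := Y421.AW.t_res
  par := Pool.Agent.XE31.C2.t_par2
  tup := Y236.AW.t_tuple Y761.AW.t_step
  lift := Y548.AW.t_lift
  ari := N93.PP.t_ariP
  data := N519.PP.t_dataP
  grpA := N186.PP.GrpA.t_grpA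

end Pool.Agent.H43W
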