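import Mathlib
import Pool.Agent.H43W.Fin1
import Pool.Agent.H43W.Fib2
import Pool.Agent.XE31.C2.Main3

/-!
Project W2: the main theorem for all characters (helper31).
-/

set_option autoImplicit false

namespace Pool.Agent.H43W

theorem mB2 : St_mB2 := fun K L _ _ _ _ _ _ _ B _ _ a ha hp hw r hr hr2 =>
  Pool.Agent.XE31.C2.mainB2 K L B a ha hp hw r hr hr2

end Pool.Agent.H43W
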