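import Mathlib

/-!
# Project W2 (helper43): `G ≀ A_n` and alternating fibre powers over `F_2(X)`

Statements (NOT results) of the pieces, problem MP_7f581e_nt. Everything here only needs Mathlib.

The construction. `N` is an algebraically closed field of characteristic 2, `Θ(X, Z)` a monic
polynomial in `Z` with discriminant `D₀(X)`, `D = D₀ ^ 4`. The points `(x_l, θ_l)` of the curve
`Θ = 0` over `(ν, s)` are given by `G(x) = s (D(x) θ) ^ 4`,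
`G = X D ^ 4 + (X ^ B D + 1) ^ 4 + D ^ 4 ∑ ν_a X ^ (4 a)`. The group of the permutations of the
points is contained in the alternating group: the points are lifted to a ring `A` of characteristic
0 with residue field `N = A / 2` (Witt vectors), and the discriminant is computed modulo 8.

All polynomials `f(X, Z)` are elements of `R[X][X]`, the outer variable is `Z`.
-/

set_option autoImplicit false

namespace Pool.Agent.H43W

open Polynomial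

section defs

variable {R : Type} [CommRing R]

/-- `f(a, Z)`. -/
noncomputable def ev (f : R[X][X]) (a : R) : R[X] := f.map (evalRingHom a)

/-- The derivative `f_Z(a, b)`. -/
noncomputable def fZ (f : R[X][X]) (a b : R) : R := (ev f a).derivative.eval b

/-- The derivative `f_X(a, b)`. -/
noncomputable def fX (f : R[X][X]) (a b : R) : R :=
  ∑ k ∈ Finset.range (f.natDegree + 1), (derivative (f.coeff k)).eval a * b ^ k

/-- `∑ f_k g ^ k h ^ (d - k)`. -/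
noncomputable def Hm (f : R[X][X]) (g h : R[X]) (d : ℕ) : R[X] :=
  ∑ k ∈ Finset.range (d + 1), f.coeff k * g ^ k * h ^ (d - k)

/-- `G(X) = X D ^ 4 + (X ^ B D + 1) ^ 4 + D ^ 4 ∑ ν_a X ^ (4 a)`. -/
noncomputable def GG (D : R[X]) (B : ℕ) {m : ℕ} (ν : Fin m → R) : R[X] :=
  X * D ^ 4 + (X ^ B * D + 1) ^ 4 + D ^ 4 * ∑ a : Fin m, C (ν a) * X ^ (4 * (a : ℕ))

/-- The polynomial `g` with `g(Z ^ 2) = (-1) ^ deg f * f(Z) f(-Z)`: the roots are the squares of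
the roots of `f`. -/
noncomputable def gr1 (f : R[X]) : R[X] :=
  (-1) ^ f.natDegree * ((contract 2 f) ^ 2 - X * (contract 2 f.divX) ^ 2)

/-- The polynomial whose roots are the fourth powers of the roots of `f`. -/
noncomputable def gr (f : R[X]) : R[X] := gr1 (gr1 f)

end defs

/-- GR: properties of `gr`.

Proof. Put `e = contract 2 f`, `o = contract 2 f.divX`, so `f = expand 2 e + X * expand 2 o`
(compare coefficients) and `f(-X) = expand 2 e - X * expand 2 o`. Hence `expand 2 (gr1 f) =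
(-1) ^ natDegree f * f * f(-X)`. `expand 2` is injective.
(a) If `f` is monic of degree `d` then so is `gr1 f`: the coefficient of `X ^ (2 d)` of
`expand 2 (gr1 f)` is `(-1) ^ d * 1 * (-1) ^ d = 1` and the degree is at most `2 d` (or look at `e`
and `o` directly).
(b) apply the formula twice: `expand 4 = expand 2 ∘ expand 2`.
(c) `contract` and `divX` commute with `map`; `natDegree` is preserved for monic `f`.
(d) for `f = ∏ (X - z_i)`: `expand 2 (gr1 f) = (-1) ^ d ∏ (X - z_i) ∏ (-X - z_i) = ∏ (X ^ 2 - z_i ^ 2)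
= expand 2 (∏ (X - z_i ^ 2))`; twice.
(e) in characteristic 2: `expand 2 (gr1 f) = f * f = expand 2 (∑ f_k ^ 2 X ^ k)` (or coefficients of
`e ^ 2 - X o ^ 2`).
(f) the coefficients of `e` and `o` are coefficients of `f`; those of `e ^ 2 - X o ^ 2` are sums of
products of two of them. -/
def S_GR : Prop :=
  (∀ (R : Type) [CommRing R] (f : R[X]), f.Monic →
    (gr f).Monic ∧ (gr f).natDegree = f.natDegree) ∧
  (∀ (R : Type) [CommRing R] (f : R[X]), ∃ h : R[X], expand R 4 (gr f) = f * h) ∧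
  (∀ (R S : Type) [CommRing R] [CommRing S] [Nontrivial S] (φ : R →+* S) (f : R[X]), f.Monic →
    (gr f).map φ = gr (f.map φ)) ∧
  (∀ (R : Type) [CommRing R] [IsDomain R] (d : ℕ) (z : Fin d → R),
    gr (∏ i, (X - C (z i))) = ∏ i, (X - C (z i ^ 4))) ∧
  (∀ (R : Type) [CommRing R] [CharP R 2] (f : R[X]) (k : ℕ), (gr f).coeff k = f.coeff k ^ 4) ∧
  (∀ (R : Type) [CommRing R] (f : R[X][X]) (b : ℕ), (∀ k, (f.coeff k).natDegree ≤ b) →
    ∀ k, ((gr f).coeff k).natDegree ≤ 4 * b)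

/-- DER: the derivative of `P = Hm (gr f) g h d` at a zero, where `g(a) = h(a) b ^ 4`, `f(a, b) = 0`.

Proof. Write `Ξ = gr f` (monic of degree `d` in the outer variable), `y = b ^ 4`. By GR (b) (over the
ring `R[X]`) `Ξ(X, Z ^ 4) = f(X, Z) λ(X, Z)`. Hence `Ξ(a, y) = 0`,
`Ξ_X(a, y) = f_X(a, b) λ(a, b)` (derivative with respect to `X`, evaluated at `(a, b)`, `f(a, b) = 0`)
and `4 b ^ 3 Ξ_Z(a, y) = f_Z(a, b) λ(a, b)`; so `f_Z Ξ_X(a, y) = 4 b ^ 3 f_X Ξ_Z(a, y)`.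
`P' (a) = ∑ Ξ_k'(a) g ^ k h ^ (d - k) + ∑ Ξ_k(a) (k g ^ (k - 1) g' h ^ (d - k)
+ (d - k) g ^ k h ^ (d - k - 1) h')`; with `g = h y` this is `h ^ d Ξ_X(a, y)
+ h ^ (d - 1) g' Ξ_Z(a, y) + h ^ (d - 1) h' ∑ (d - k) Ξ_k(a) y ^ k`, and the last sum is
`-y Ξ_Z(a, y)` because `Ξ(a, y) = 0`. Multiply by `f_Z(a, b)`. -/
def S_DER : Prop :=
  ∀ (R : Type) [CommRing R] (f : R[X][X]) (g h : R[X]) (d : ℕ) (a b : R), f.Monic →
    f.natDegree = d → 0 < d → (ev f a).eval b = 0 → g.eval a = h.eval a * b ^ 4 →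
    fZ f a b * (derivative (Hm (gr f) g h d)).eval a =
      (h.eval a) ^ (d - 1) * fZ (gr f) a (b ^ 4) *
        (fZ f a b * ((derivative g).eval a - b ^ 4 * (derivative h).eval a) +
          4 * b ^ 3 * h.eval a * fX f a b)

/-! ### The lift -/

/-- `A` is a domain with residue field `N = A / 2`, henselian for monic polynomials, with a section
`T` of the residue map `ρ`; automorphisms of `N` lift. -/
structure Lf {A N : Type} [CommRing A] [Field N] (ρ : A →+* N) (T : N → A) : Prop where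
  dom : IsDomain A
  two : (2 : A) ≠ 0
  ker : ∀ a, ρ a = 0 ↔ ∃ b, a = 2 * b
  sec : ∀ x, ρ (T x) = x
  zero : T 0 = 0
  one : T 1 = 1
  unit : ∀ a, ρ a ≠ 0 → IsUnit a
  hens : ∀ (f : A[X]) (a : N), f.Monic → (f.map ρ).eval a = 0 →
    (f.map ρ).derivative.eval a ≠ 0 → ∃ a', f.eval a' = 0 ∧ ρ a' = a
  aut : ∀ σ : N ≃+* N, ∃ σ' : A ≃+* A, (∀ a, ρ (σ' a) = σ (ρ a)) ∧ ∀ x, σ' (T x) = T (σ x)

/-- WITT: the ring of Witt vectors `WittVector 2 N`, `T = WittVector.teichmuller 2`,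
`ρ = WittVector.constantCoeff` (`N` is perfect, being algebraically closed).

Mathlib: `WittVector.isDomain`-type instances in `RingTheory/WittVector/Domain`,
`WittVector.ker_constantCoeff`, `WittVector.isAdicCompleteIdealSpanP`, `IsAdicComplete.henselianRing`
(`HenselianRing.is_henselian`; `mk (f' (a₀))` is a unit of the field `A / 2`), `WittVector.map`,
`WittVector.map_teichmuller`, discrete valuation ring: `WittVector.isDiscreteValuationRing`; units: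
`WittVector.isUnit_of_coeff_zero_ne_zero`. -/
def S_WITT : Prop :=
  ∀ (N : Type) [Field N] [CharP N 2] [IsAlgClosed N],
    ∃ (A : Type) (_ : CommRing A) (ρ : A →+* N) (T : N → A), Lf ρ T

/-- The lifted points: `x' l` and `θ' l` lift `x l` and `θ l`, `z l i` are the roots of
`f(x' l, Z)`, which lift the roots `b l i`, and `θ' l = z l (i₀ l)`. -/
structure LP {A N : Type} [CommRing A] [Field N] (ρ : A →+* N) (f : A[X][X]) (g h : A[X])
    {n d : ℕ} (x θ : Fin n → N) (b : Fin n → Fin d → N) (c : A) (x' θ' : Fin n → A)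
    (z : Fin n → Fin d → A) (i₀ : Fin n → Fin d) : Prop where
  injx : Function.Injective x
  injb : ∀ l, Function.Injective (b l)
  redx : ∀ l, ρ (x' l) = x l
  redθ : ∀ l, ρ (θ' l) = θ l
  redz : ∀ l i, ρ (z l i) = b l i
  unit : IsUnit c
  prod : Hm (gr f) g h d = C c * ∏ l, (X - C (x' l))
  split : ∀ l, ev f (x' l) = ∏ i, (X - C (z l i))
  idx : ∀ l, θ' l = z l (i₀ l)
  val : ∀ l, g.eval (x' l) = h.eval (x' l) * θ' l ^ 4

/-- LFT: existence of the lifted points.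

Proof. Let `P = Hm (gr f) g h d` and `c` its coefficient of `X ^ n`; `ρ c = c₀ ≠ 0`, so `c` is a unit
and `c⁻¹ P` is monic of degree `n` with reduction `∏ (X - x_l)`. By `hens` it has zeros `x' l` over
the `x l`, which are different, so `P = c ∏ (X - x' l)` (a monic polynomial of degree `n` over a
domain with `n` different zeros). `ev f (x' l)` is monic of degree `d` with reduction
`∏ (X - b l i)`, so `ev f (x' l) = ∏ (X - z l i)` in the same way. By GR (c), (d)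
`ev (gr f) (x' l) = ∏ (X - z l i ^ 4)`, so `0 = P(x' l) = ∏ (g(x' l) - h(x' l) z l i ^ 4)`
(homogenization of a product of linear factors, `∑ coeff k u ^ k v ^ (d - k) = ∏ (u - v y_i)`), and
one of the factors is zero: `i₀ l`. The reduction of `z l (i₀ l)` is `θ l` by the last hypothesis. -/
def S_LFT : Prop :=
  ∀ (A N : Type) [CommRing A] [Field N] (ρ : A →+* N) (T : N → A), Lf ρ T →
    ∀ (f : A[X][X]) (g h : A[X]) (n d : ℕ), f.Monic → f.natDegree = d →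
    (Hm (gr f) g h d).natDegree ≤ n → ∀ (x θ : Fin n → N) (b : Fin n → Fin d → N) (c₀ : N),
    Function.Injective x → (∀ l, Function.Injective (b l)) → c₀ ≠ 0 →
    (Hm (gr f) g h d).map ρ = C c₀ * ∏ l, (X - C (x l)) →
    (∀ l, ev (f.map (mapRingHom ρ)) (x l) = ∏ i, (X - C (b l i))) →
    (∀ l u, (ev (f.map (mapRingHom ρ)) (x l)).eval u = 0 →
      (g.map ρ).eval (x l) = (h.map ρ).eval (x l) * u ^ 4 → u = θ l) →
    ∃ (c : A) (x' θ' : Fin n → A) (z : Fin n → Fin d → A) (i₀ : Fin n → Fin d),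
      LP ρ f g h x θ b c x' θ' z i₀

/-- EQV: automorphisms permute the lifted points.

Proof. `P = Hm (gr f) g h d` is mapped to itself by `σ'` (GR (c) for the ring homomorphism
`mapRingHom σ'` of `A[X]`), so `c` is fixed (leading coefficient) and `σ' (x' l)` is a zero of `P`,
i.e. some `x' j` (`A` is a domain); reduction: `x j = σ (x l) = x (τ l)`, so `j = τ l`. Similarly
`σ' (z l i)` is a zero of `ev f (x' (τ l))`, i.e. some `z (τ l) (π i)`; `π` is injective because the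
`z l i` are different (`injb`, `redz`). Finally `σ' (θ' l) = z (τ l) (π (i₀ l))` and
`θ' (τ l) = z (τ l) (i₀ (τ l))` have the same reduction `θ (τ l)`, so the indices agree. -/
def S_EQV : Prop :=
  ∀ (A N : Type) [CommRing A] [Field N] (ρ : A →+* N) (T : N → A), Lf ρ T →
    ∀ (f : A[X][X]) (g h : A[X]) (n d : ℕ), f.Monic → f.natDegree = d →
    ∀ (x θ : Fin n → N) (b : Fin n → Fin d → N) (c : A) (x' θ' : Fin n → A)
      (z : Fin n → Fin d → A) (i₀ : Fin n → Fin d), LP ρ f g h x θ b c x' θ' z i₀ →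
    ∀ (σ : N ≃+* N) (σ' : A ≃+* A), (∀ a, ρ (σ' a) = σ (ρ a)) →
      f.map (mapRingHom (σ' : A →+* A)) = f → g.map (σ' : A →+* A) = g →
      h.map (σ' : A →+* A) = h → ∀ τ : Equiv.Perm (Fin n), (∀ l, σ (x l) = x (τ l)) →
      (∀ l, σ (θ l) = θ (τ l)) →
      σ' c = c ∧ (∀ l, σ' (x' l) = x' (τ l)) ∧ (∀ l, σ' (θ' l) = θ' (τ l)) ∧
      ∀ l, ∃ π : Equiv.Perm (Fin d), (∀ i, σ' (z l i) = z (τ l) (π i)) ∧ π (i₀ l) = i₀ (τ l)

/-- PAR: the sign.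

Proof. `V = det (vandermonde x')`; `∏ ∏ (x' l - x' j) = V ^ 2` as `4 ∣ n` (this is the lemma
`prod_eq` in `Pool/Agent/Y436/AW/Par.lean`, adapt it to a commutative ring), and `σ' V = sign τ * V`.
With `v = Q⁻¹ V`: `v ^ 2 = 1 + 8 y`, so `ρ v = 1`, `v = 1 + 2 t`, `4 t (t + 1) = 8 y`,
`t (t + 1) = 2 y`; applying `ρ`, `t` or `t + 1` is divisible by 2, so `v = ±1 + 4 t'`. If `sign τ = -1`
then `σ' v = -v`, so `2 = ± 4 (t' + σ' t')` and 2 would be a unit; but `ρ 2 = 0`. -/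
def S_PAR : Prop :=
  ∀ (A N : Type) [CommRing A] [Field N] (ρ : A →+* N) (T : N → A), Lf ρ T →
    ∀ (n : ℕ), 4 ∣ n → ∀ (x' : Fin n → A) (Q y : A), IsUnit Q →
    ∏ l, ∏ j ∈ Finset.univ.erase l, (x' l - x' j) = Q ^ 2 * (1 + 8 * y) →
    ∀ (σ' : A ≃+* A) (τ : Equiv.Perm (Fin n)), (∀ l, σ' (x' l) = x' (τ l)) → σ' Q = Q →
      Equiv.Perm.sign τ = 1

/-- MOD8: a product modulo 8.

Proof. `(∑ w) ^ 2 = ∑ w ^ 2 + 2 e` with `e = ∑_{i < j} w_i w_j`, `∑ w = 2 t`. Modulo 8,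
`1 + 4 w + 6 w ^ 2 + 4 w ^ 3 = (1 - 2 w ^ 2) + 4 (w + w ^ 3) = (1 - 2 w ^ 2) (1 + 4 (w + w ^ 3))`,
so the product is `∏ (1 - 2 w_i ^ 2)`, because `∏ (1 + 4 (w_i + w_i ^ 3)) = 1 + 4 ∑ (w_i + w_i ^ 3)
= 1`. `∏ (1 - 2 w_i ^ 2) = 1 - 2 ∑ w_i ^ 2 + 4 ∑_{i < j} w_i ^ 2 w_j ^ 2`, where
`-2 ∑ w_i ^ 2 = -2 (4 t ^ 2 - 2 e) = 4 e`, and `∑_{i < j} w_i ^ 2 w_j ^ 2 = e ^ 2` modulo 2. So the
product is `1 + 4 e + 4 e ^ 2 = (1 + 2 e) ^ 2` modulo 8, and `1 + 2 e` is a unit. (One can prove by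
induction on `S`, without hypotheses on the sums, that modulo 8
`∏ (1 + 4 w_i + 6 w_i ^ 2 + 4 w_i ^ 3) = 1 + 6 p_2 + 4 (p_1 + p_3) + 4 e ^ 2`.) -/
def S_MOD8 : Prop :=
  ∀ (A N : Type) [CommRing A] [Field N] (ρ : A →+* N) (T : N → A), Lf ρ T →
    ∀ (ι : Type) (S : Finset ι) (w : ι → A), ρ (∑ i ∈ S, w i) = 0 → ρ (∑ i ∈ S, w i ^ 3) = 0 →
    IsUnit (1 + (∑ i ∈ S, w i) ^ 2 - ∑ i ∈ S, w i ^ 2) ∧
    ∃ y, ∏ i ∈ S, (1 + 4 * w i + 6 * w i ^ 2 + 4 * w i ^ 3) =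
      (1 + (∑ i ∈ S, w i) ^ 2 - ∑ i ∈ S, w i ^ 2) ^ 2 * (1 + 8 * y)

/-- FINT: one factor of the derivative modulo 8, for `D = E ^ 4` and even `B`.

Proof. `D' = 4 E ^ 3 E'`, and `g' = D ^ 4 + 4 X D ^ 3 D' + 4 (X ^ B D + 1) ^ 3 (B X ^ (B - 1) D +
X ^ B D') + 4 D ^ 3 D' ∑ ν_a X ^ (4 a) + D ^ 4 ∑ 4 a ν_a X ^ (4 a - 1)`, `h' = 4 s D ^ 3 D'`; all terms
except `D ^ 4` and the last sum are divisible by 8. -/
def S_FINT : Prop :=
  ∀ (A : Type) [CommRing A] (E : A[X]) (s : A) (B m : ℕ), Even B → ∀ (ν : Fin m → A)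
    (x θ u v w : A), u * v = 1 → IsUnit (E.eval x) →
    ∃ y, u * ((derivative (GG (E ^ 4) B ν)).eval x -
        θ ^ 4 * (derivative (C s * (E ^ 4) ^ 4)).eval x) +
        4 * θ ^ 3 * (C s * (E ^ 4) ^ 4).eval x * w =
      u * (E.eval x) ^ 16 *
        (1 + 4 * (∑ a : Fin m, ((a : ℕ) : A) * ν a * x ^ (4 * (a : ℕ) - 1) + s * θ ^ 3 * w * v) +
          8 * y)

/-- FIN: the discriminant is the square of an invariant unit, times `1 + 8 y`.

Proof. Put `D = E ^ 4`, `h = s D ^ 4`, `g = GG D B ν`, `f_Z(l) = fZ f (x' l) (θ' l)`: by `split` and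
`idx` it is `∏_{i ≠ i₀ l} (θ' l - z l i)`, a unit (reductions). From `prod`,
`c ∏_{j ≠ l} (x' l - x' j) = P'(x' l)`, `P = Hm (gr f) g h d`. By DER (cancel the unit `f_Z(l)`) and
FINT, `P'(x' l) = h(x' l) ^ (d - 1) * fZ (gr f) (x' l) (θ' l ^ 4) * E(x' l) ^ 16 * (1 + 4 E_l + 8 y_l)`
with `E_l = ∑ a ν_a x' l ^ (4 a - 1) + s θ' l ^ 3 f_X f_Z⁻¹`. By GR (c), (d)
`fZ (gr f) (x' l) (θ' l ^ 4) = ∏_{i ≠ i₀ l} (θ' l ^ 4 - z l i ^ 4)
= f_Z(l) ^ 4 ∏_{i ≠ i₀ l} (1 + 4 w + 6 w ^ 2 + 4 w ^ 3)` with `w = z l i (θ' l - z l i)⁻¹`.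
Multiply over all `l`. `ρ (∑ E_l) = 0` by the hypotheses `(tX)` and `(ta)`, so
`∏ (1 + 4 E_l + 8 y_l) = 1 + 8 y`. By MOD8, with `(t1)` and `(t3)`, the product of all
`1 + 4 w + 6 w ^ 2 + 4 w ^ 3` is `q ^ 2 (1 + 8 y)`, `q = 1 + (∑∑ w) ^ 2 - ∑∑ w ^ 2`. As `n` is even,
`n = 2 k`, one gets `∏ ∏ (x' l - x' j) = Q ^ 2 (1 + 8 y)` with
`Q = (c⁻¹) ^ k * s ^ (k (d - 1)) * ∏ E(x' l) ^ (8 (d - 1)) * ∏ f_Z(l) ^ 2 * q * ∏ E(x' l) ^ 8`,
which is fixed by `σ'` (the factors are permuted). -/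
def S_FIN : Prop :=
  ∀ (A N : Type) [CommRing A] [Field N] (ρ : A →+* N) (T : N → A), Lf ρ T →
    ∀ (f : A[X][X]) (E : A[X]) (s : A) (B m : ℕ) (ν : Fin m → A) (n d : ℕ), f.Monic →
    f.natDegree = d → 0 < d → Even B → Even n →
    ∀ (x θ : Fin n → N) (b : Fin n → Fin d → N) (c : A) (x' θ' : Fin n → A)
      (z : Fin n → Fin d → A) (i₀ : Fin n → Fin d),
      LP ρ f (GG (E ^ 4) B ν) (C s * (E ^ 4) ^ 4) x θ b c x' θ' z i₀ →
    ρ s ≠ 0 → (∀ l, (E.map ρ).eval (x l) ≠ 0) →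
    (∑ l, ∑ i ∈ Finset.univ.erase (i₀ l), b l i / (θ l - b l i) = 0) →
    (∑ l, ∑ i ∈ Finset.univ.erase (i₀ l), (b l i / (θ l - b l i)) ^ 3 = 0) →
    (∑ l, θ l ^ 3 * fX (f.map (mapRingHom ρ)) (x l) (θ l) /
      fZ (f.map (mapRingHom ρ)) (x l) (θ l) = 0) →
    (∀ a : Fin m, ((a : ℕ) : N) * ∑ l, x l ^ (4 * (a : ℕ) - 1) = 0) →
    ∃ Q y : A, IsUnit Q ∧
      ∏ l, ∏ j ∈ Finset.univ.erase l, (x' l - x' j) = Q ^ 2 * (1 + 8 * y) ∧
      ∀ (σ' : A ≃+* A) (τ : Equiv.Perm (Fin n)), f.map (mapRingHom (σ' : A →+* A)) = f →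
        E.map (σ' : A →+* A) = E → σ' s = s → σ' c = c → (∀ l, σ' (x' l) = x' (τ l)) →
        (∀ l, σ' (θ' l) = θ' (τ l)) →
        (∀ l, ∃ π : Equiv.Perm (Fin d), (∀ i, σ' (z l i) = z (τ l) (π i)) ∧
          π (i₀ l) = i₀ (τ l)) → σ' Q = Q

/-! ### The points and the traces, over the field `N` -/

/-- The data: `Θ` is monic of degree `d` in `Z` with discriminant (up to sign) `D₀ ≠ 0`. -/
structure Dt {N : Type} [Field N] (Θ : N[X][X]) (D₀ : N[X]) (d : ℕ) : Prop where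
  monic : Θ.Monic
  deg : Θ.natDegree = d
  pos : 0 < d
  res : resultant Θ Θ.derivative d (d - 1) = D₀
  ne : D₀ ≠ 0

/-- The number `B` is large. -/
structure Bd {N : Type} [Field N] (Θ : N[X][X]) (B m : ℕ) : Prop where
  one : 1 ≤ B
  m : m ≤ B
  coeff : ∀ k, (Θ.coeff k).natDegree < B

/-- The point `(a, b)` of the curve `Θ = 0` lies over `(ν, s)`. -/
def Pt {N : Type} [Field N] (Θ : N[X][X]) (D₀ : N[X]) (B : ℕ) {m : ℕ} (ν : Fin m → N)
    (s a b : N) : Prop :=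
  (ev Θ a).eval b = 0 ∧ D₀.eval a ≠ 0 ∧ (GG (D₀ ^ 4) B ν).eval a = s * ((D₀.eval a) ^ 4 * b) ^ 4

/-- All points over `(ν, s)`. -/
structure PD {N : Type} [Field N] (Θ : N[X][X]) (D₀ : N[X]) (d B : ℕ) {m : ℕ} (ν : Fin m → N)
    (s : N) {n : ℕ} (x θ : Fin n → N) : Prop where
  inj : Function.Injective x
  pt : ∀ l, Pt Θ D₀ B ν s (x l) (θ l)
  all : ∀ a b, Pt Θ D₀ B ν s a b → ∃ l, a = x l ∧ b = θ l
  prod : ∑ k ∈ Finset.range (d + 1), (Θ.coeff k) ^ 4 * (GG (D₀ ^ 4) B ν) ^ k *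
      (C s * (D₀ ^ 4) ^ 4) ^ (d - k) = C (D₀.leadingCoeff ^ (16 * d)) * ∏ l, (X - C (x l))
  der : ∀ l, D₀.leadingCoeff ^ (16 * d) * ∏ j ∈ Finset.univ.erase l, (x l - x j) =
      (D₀.eval (x l)) ^ 16 * (s * (D₀.eval (x l)) ^ 16) ^ (d - 1) * fZ Θ (x l) (θ l) ^ 4

/-- PTS: the points over `(ν, s)`. This is a port of `Pool/Agent/Y921/AW/Pts.lean` (432 lines, with
`Pool/Agent/Y421/AW/Res.lean`, 60 lines) from the exponent `p` to the exponent 4 in characteristic 2,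
with `K = N`: replace `sum_pow_char` by `sum_pow_char_pow` (`4 = 2 ^ 2`), `frobenius_inj` by
injectivity of `a ↦ a ^ 4`, the derivative of a fourth power is 0. The product formula `prod` and
the derivative `der` are proved there (`hnodal`, `hder`). -/
def S_PTS : Prop :=
  ∀ (N : Type) [Field N] [CharP N 2] [IsAlgClosed N] (Θ : N[X][X]) (D₀ : N[X]) (d B m : ℕ),
    Dt Θ D₀ d → Bd Θ B m → ∀ (ν : Fin m → N) (s : N), s ≠ 0 →
    ∃ x θ : Fin (d * (4 * (B + (D₀ ^ 4).natDegree))) → N, PD Θ D₀ d B ν s x θ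

/-- RES: the roots over a point with nonzero discriminant. See `Pool/Agent/Y421/AW/Res.lean`
(the case `K = N`); `ev Θ a` is separable and splits. -/
def S_RES : Prop :=
  ∀ (N : Type) [Field N] [IsAlgClosed N] (Θ : N[X][X]) (D₀ : N[X]) (d : ℕ), Dt Θ D₀ d →
    ∀ a : N, D₀.eval a ≠ 0 → ∃ b : Fin d → N, Function.Injective b ∧
      ev Θ a = ∏ i, (X - C (b i)) ∧ ∀ i, fZ Θ a (b i) ≠ 0

/-- EUL: Euler's identity (Lagrange interpolation: the coefficient of `X ^ (n - 1)` of the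
interpolation polynomial of `R`, which is `R`, is the sum; Mathlib: `Lagrange.coeff_eq_sum` or
`Lagrange.sum_basis`, `Lagrange.eq_interpolate`). -/
def S_EUL : Prop :=
  ∀ (N : Type) [Field N] (n : ℕ) (x : Fin n → N) (R : N[X]), Function.Injective x →
    R.natDegree + 2 ≤ n → ∑ l, R.eval (x l) / ∏ j ∈ Finset.univ.erase l, (x l - x j) = 0

/-- TRP: the trace of `H(X, Z)` with respect to `Θ(X, Z) = 0` is a polynomial `P(X)`.

Proof. `P` = coefficient of `Z ^ (d - 1)` of `(H * Θ_Z) %ₘ Θ` (in `N[X][Z]`). Specialization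
`X ↦ a` commutes with `%ₘ` (`Polynomial.map_modByMonic`), and for a monic `f = ∏ (Z - b_i)` over a
field with different `b_i` and any `q` the coefficient of `Z ^ (d - 1)` of `q %ₘ f` is
`∑ q(b_i) / f'(b_i)` by Lagrange interpolation; take `q = H(a, Z) f'`. (If `d = 0` take `P = 0`.)
Or: Newton's identities, or `Algebra.trace` of `AdjoinRoot Θ` over `N[X]`. -/
def S_TRP : Prop :=
  ∀ (N : Type) [Field N] (Θ : N[X][X]) (d : ℕ), Θ.Monic → Θ.natDegree = d → ∀ H : N[X][X],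
    ∃ P : N[X], ∀ (a : N) (b : Fin d → N), Function.Injective b →
      ev Θ a = ∏ i, (X - C (b i)) → ∑ i, (ev H a).eval (b i) = P.eval a

/-- TRR: the polynomial `R` of the trace formula.

Proof. Write `D = D₀ ^ 4`, `G = GG D B ν`, `h = s D ^ 4`, `M = 4 (B + deg D)`, and let `P_j` be the
trace polynomial (TRP) of `H Z ^ (4 j)`, `j < d`. Put
`R = ∑_{k ≤ d} Θ_k ^ 4 h ^ (d - k) ∑_{j < k} G ^ (k - 1 - j) h ^ j P_j`.
Degree: `deg G ≤ M`, `deg h ≤ 4 deg D ≤ M`; so the term `(k, j)` has degree at most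
`4 max deg Θ_k + (d - k) M + (k - 1 - j) M + j M + max deg P_j = (d - 1) M + const`, and this is
`≤ d M - 2` if `B ≥ B₀` (`m ≤ B` gives `deg G ≤ M`).
Value at `a`, where `Θ(a, Z) = ∏ (Z - b_i)` with different `b_i` and `G(a) = h(a) b_i ^ 4`:
`R(a) = ∑_t H(a, b_t) ∑_k Θ_k(a) ^ 4 h ^ (d - k) ∑_{j < k} G ^ (k - 1 - j) (h b_t ^ 4) ^ j`. The inner
double sum `q_t` satisfies `(G - h b_t ^ 4) q_t = F(G) - F(h b_t ^ 4)` where
`F(Y) = ∑ Θ_k(a) ^ 4 h ^ (d - k) Y ^ k`; in characteristic 2, `F(h y ^ 4) = h ^ d Θ(a, y) ^ 4`, so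
`F(G(a)) = 0 = F(h b_t ^ 4)` and `q_t = 0` for `t ≠ i` (`h(a) ≠ 0`, `b_t ^ 4 ≠ b_i ^ 4`). For `t = i`
all `G ^ (k - 1 - j) (h b_i ^ 4) ^ j = (h b_i ^ 4) ^ (k - 1)`, so
`q_i = ∑ k Θ_k ^ 4 h ^ (d - k) (h b_i ^ 4) ^ (k - 1) = h ^ (d - 1) (∑ k Θ_k b_i ^ (k - 1)) ^ 4`
(`k ^ 4 = k` in characteristic 2). -/
def S_TRR : Prop :=
  ∀ (N : Type) [Field N] [CharP N 2] (Θ : N[X][X]) (D₀ : N[X]) (d : ℕ), Dt Θ D₀ d →
    ∀ H : N[X][X], ∃ B₀ : ℕ, ∀ B ≥ B₀, ∀ m ≤ B, ∀ (ν : Fin m → N) (s : N), s ≠ 0 →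
    ∃ R : N[X], R.natDegree + 2 ≤ d * (4 * (B + (D₀ ^ 4).natDegree)) ∧
      ∀ (a : N) (b : Fin d → N) (i : Fin d), Function.Injective b →
        ev Θ a = ∏ i, (X - C (b i)) → D₀.eval a ≠ 0 →
        (GG (D₀ ^ 4) B ν).eval a = s * ((D₀.eval a) ^ 4 * b i) ^ 4 →
        R.eval a = (ev H a).eval (b i) * (s * (D₀.eval a) ^ 16) ^ (d - 1) * fZ Θ a (b i) ^ 4

/-- TRA: the trace formula, from TRR, EUL, RES and `PD.der` (divide by the derivative). -/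
def S_TRA : Prop :=
  ∀ (N : Type) [Field N] [CharP N 2] [IsAlgClosed N] (Θ : N[X][X]) (D₀ : N[X]) (d : ℕ),
    Dt Θ D₀ d → ∀ H : N[X][X], ∃ B₀ : ℕ, ∀ B ≥ B₀, ∀ m ≤ B, ∀ (ν : Fin m → N) (s : N), s ≠ 0 →
    ∀ x θ : Fin (d * (4 * (B + (D₀ ^ 4).natDegree))) → N, PD Θ D₀ d B ν s x θ →
      ∑ l, (ev H (x l)).eval (θ l) / (D₀.eval (x l)) ^ 16 = 0

/-- FUN: the functions in the traces are polynomials in `(x, θ)` divided by `D₀ ^ 16`.

Proof. There are `U, V` with `U Θ + V Θ_Z = D₀` (`exists_mul_add_mul_eq_C_resultant`), so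
`V(a, b) Θ_Z(a, b) = D₀(a)` at points of the curve. This gives (X): `H = V Z ^ 3 Θ_X D₀ ^ 15`.
(W) For different roots `b_i, b_j` of `f = Θ(a, Z)` put `q_i(Y) = (f(Y) - f(b_i)) / (Y - b_i)`, a
polynomial in `Y`, `b_i` with coefficients in `N[X]` (evaluated at `a`): `q_i(b_i) = Θ_Z(a, b_i)`,
`q_i(b_j) = 0`. The quotient `M(Y, W) = (q_i(Y) - q_i(W)) / (Y - W)` is a polynomial in `Y, W, b_i`, and
`M(b_i, b_j) (b_i - b_j) = Θ_Z(a, b_i)`. So `(b_j / (b_i - b_j)) ^ k Θ_Z(a, b_i) ^ k` is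
`F(a, b_i, b_j)` for a polynomial `F` in three variables, and `∑_{j ≠ i} F(a, b_i, b_j) =
∑_j F(a, b_i, b_j) - F(a, b_i, b_i)` is a polynomial in `a, b_i`, because `∑_j b_j ^ e` is a
polynomial in `a` (TRP for `H = Z ^ e`). Multiply by `V ^ k D₀ ^ (16 - k)`. -/
def S_FUN : Prop :=
  ∀ (N : Type) [Field N] (Θ : N[X][X]) (D₀ : N[X]) (d : ℕ), Dt Θ D₀ d →
    (∃ H : N[X][X], ∀ a b : N, (ev Θ a).eval b = 0 → D₀.eval a ≠ 0 →
      b ^ 3 * fX Θ a b / fZ Θ a b * (D₀.eval a) ^ 16 = (ev H a).eval b) ∧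
    ∀ k ≤ 16, ∃ H : N[X][X], ∀ (a : N) (b : Fin d → N) (i : Fin d), Function.Injective b →
      ev Θ a = ∏ i, (X - C (b i)) →
      (∑ j ∈ Finset.univ.erase i, (b j / (b i - b j)) ^ k) * (D₀.eval a) ^ 16 =
        (ev H a).eval (b i)

/-- SGN: the signs (assembly of all pieces, helper43). -/
def S_SGN : Prop :=
  ∀ (N : Type) [Field N] [CharP N 2] [IsAlgClosed N] (Θ : N[X][X]) (D₀ : N[X]) (d m : ℕ),
    Dt Θ D₀ d → ∃ B₀ : ℕ, ∀ B ≥ B₀, Even B → Bd Θ B m → ∀ (ν : Fin m → N) (s : N), s ≠ 0 →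
    ∀ x θ : Fin (d * (4 * (B + (D₀ ^ 4).natDegree))) → N, PD Θ D₀ d B ν s x θ →
    ∀ σ : N ≃+* N, (∀ k j, σ ((Θ.coeff k).coeff j) = (Θ.coeff k).coeff j) →
      (∀ j, σ (D₀.coeff j) = D₀.coeff j) → σ s = s → (∀ a, σ (ν a) = ν a) →
      ∀ τ : Equiv.Perm (Fin (d * (4 * (B + (D₀ ^ 4).natDegree)))), (∀ l, σ (x l) = x (τ l)) →
        (∀ l, σ (θ l) = θ (τ l)) → Equiv.Perm.sign τ = 1

end Pool.Agent.H43W
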